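import Mathlib

/-!
# Dirichlet eigenvalue of open subsets of three-space: definitions

`lam1 U` is the infimum of the Rayleigh quotient over nonzero real `C^∞` functions with compact
support in `U`. For a bounded nonempty open set `U` this is the smallest eigenvalue of the
Dirichlet Laplacian `-Δ` with form domain `H¹₀(U)` (the closure of these functions).
-/

set_option autoImplicit false

namespace Pool.Agent.Helper73.Obst

open MeasureTheory
open scoped ContDiff

/-- Euclidean three-space. -/
abbrev E3 : Type := EuclideanSpace ℝ (Fin 3)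

/-- `φ` is a real `C^∞` function on three-space with compact support contained in `U`. -/
def IsTest (U : Set E3) (φ : E3 → ℝ) : Prop :=
  ContDiff ℝ ∞ φ ∧ HasCompactSupport φ ∧ tsupport φ ⊆ U

/-- The Dirichlet energy `∫ |∇φ|²`. -/
noncomputable def energy (φ : E3 → ℝ) : ℝ := ∫ z, ‖fderiv ℝ φ z‖ ^ 2

/-- The squared `L²` norm `∫ φ²`. -/
noncomputable def mass (φ : E3 → ℝ) : ℝ := ∫ z, φ z ^ 2

/-- The first Dirichlet eigenvalue of `-Δ` on `U`: the infimum of the Rayleigh quotients
`(∫ |∇φ|²) / (∫ φ²)` over nonzero `φ ∈ C_c^∞(U)`. -/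
noncomputable def lam1 (U : Set E3) : ℝ :=
  sInf {q : ℝ | ∃ φ : E3 → ℝ, IsTest U φ ∧ φ ≠ 0 ∧ q = energy φ / mass φ}

end Pool.Agent.Helper73.Obst
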