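import Mathlib
import Pool.Agent.Helper73.Obst.Defs

set_option autoImplicit false

namespace Pool.Agent.Helper73.Obst

open MeasureTheory
open scoped ContDiff

/-- The `i`-th basis vector. -/
noncomputable abbrev ee (i : Fin 3) : E3 := EuclideanSpace.single i (1 : ℝ)

lemma norm_sq_clm (L : E3 →L[ℝ] ℝ) : ‖L‖ ^ 2 = ∑ i, (L (ee i)) ^ 2 := by
  obtain ⟨v, rfl⟩ := (InnerProductSpace.toDual ℝ E3).surjective L
  rw [LinearIsometryEquiv.norm_map, EuclideanSpace.norm_sq_eq]
  refine Finset.sum_congr rfl fun i _ => ?_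
  simp [InnerProductSpace.toDual_apply_apply, EuclideanSpace.inner_single_right]

/-- If `f` is continuous with `tsupport f ⊆ V`, `V` open and `h` is continuous on `V`, then
`f * h` is continuous. -/
lemma continuous_mul_of_tsupport {V : Set E3} (hV : IsOpen V) {f h : E3 → ℝ} (hf : Continuous f)
    (hs : tsupport f ⊆ V) (hh : ContinuousOn h V) : Continuous fun z => f z * h z := by
  rw [continuous_iff_continuousAt]
  intro z
  by_cases hz : z ∈ tsupport f
  · exact hf.continuousAt.mul (hh.continuousAt (hV.mem_nhds (hs hz)))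
  · have : (fun z => f z * h z) =ᶠ[nhds z] fun _ => 0 := by
      have h1 := notMem_tsupport_iff_eventuallyEq.1 hz
      filter_upwards [h1] with w hw
      simp [hw]
    exact (continuousAt_congr this).2 continuousAt_const

lemma integrable_mul_of_tsupport {V : Set E3} (hV : IsOpen V) {f h : E3 → ℝ} (hf : Continuous f)
    (hc : HasCompactSupport f) (hs : tsupport f ⊆ V) (hh : ContinuousOn h V) :
    Integrable fun z => f z * h z :=
  (continuous_mul_of_tsupport hV hf hs hh).integrable_of_hasCompactSupport hc.mul_right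

lemma IsTest.contDiff {U : Set E3} {φ : E3 → ℝ} (h : IsTest U φ) : ContDiff ℝ ∞ φ := h.1
lemma IsTest.continuous {U : Set E3} {φ : E3 → ℝ} (h : IsTest U φ) : Continuous φ := h.1.continuous
lemma IsTest.differentiable {U : Set E3} {φ : E3 → ℝ} (h : IsTest U φ) : Differentiable ℝ φ :=
  h.1.differentiable (by simp)
lemma IsTest.continuous_fderiv {U : Set E3} {φ : E3 → ℝ} (h : IsTest U φ) :
    Continuous (fderiv ℝ φ) := h.1.continuous_fderiv (by simp)

lemma IsTest.integrable_energy {U : Set E3} {φ : E3 → ℝ} (h : IsTest U φ) :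
    Integrable fun z => ‖fderiv ℝ φ z‖ ^ 2 := by
  apply Continuous.integrable_of_hasCompactSupport
  · exact (h.continuous_fderiv.norm).pow 2
  · have := (h.2.1.fderiv (𝕜 := ℝ)).norm
    exact this.comp_left (g := fun x : ℝ => x ^ 2) (by simp)

lemma IsTest.integrable_mass {U : Set E3} {φ : E3 → ℝ} (h : IsTest U φ) :
    Integrable fun z => φ z ^ 2 := by
  apply Continuous.integrable_of_hasCompactSupport
  · exact h.continuous.pow 2
  · exact h.2.1.comp_left (g := fun x : ℝ => x ^ 2) (by simp)

/-- A function with prescribed first and second pure line derivatives in coordinate directions. -/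
structure HasLap (V : Set E3) (w : E3 → ℝ) (g l : Fin 3 → E3 → ℝ) : Prop where
  cw : ContinuousOn w V
  cg : ∀ i, ContinuousOn (g i) V
  cl : ∀ i, ContinuousOn (l i) V
  dw : ∀ z ∈ V, ∀ i, HasLineDerivAt ℝ w (g i z) z (ee i)
  dg : ∀ z ∈ V, ∀ i, HasLineDerivAt ℝ (g i) (l i z) z (ee i)

/-- Barta's inequality: a positive supersolution bounds the Dirichlet form from below. -/
theorem barta {V : Set E3} (hV : IsOpen V) {w : E3 → ℝ} {g l : Fin 3 → E3 → ℝ}
    (hw : HasLap V w g l) (hpos : ∀ z ∈ V, 0 < w z) {Λ : ℝ}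
    (hlap : ∀ z ∈ V, ∑ i, l i z ≤ - Λ * w z) {φ : E3 → ℝ} (hφ : IsTest V φ) :
    Λ * mass φ ≤ energy φ := by
  have hsupp := hφ.2.2
  have hcs := hφ.2.1
  -- abbreviations
  set p : Fin 3 → E3 → ℝ := fun i z => fderiv ℝ φ z (ee i) with hp
  have hpc : ∀ i, Continuous (p i) := fun i => hφ.continuous_fderiv.clm_apply continuous_const
  have hpd : ∀ i z, HasLineDerivAt ℝ φ (p i z) z (ee i) := fun i z =>
    ((hφ.differentiable z).hasFDerivAt).hasLineDerivAt (ee i)
  -- f = φ² / w
  have hwinv : ContinuousOn (fun z => (w z)⁻¹) V := hw.cw.inv₀ (fun z hz => (hpos z hz).ne')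
  have key : ∀ i, ∫ z, (φ z * (φ z * (w z)⁻¹)) * l i z
      = - ∫ z, (2 * φ z * p i z * (w z)⁻¹ - φ z * (φ z * g i z * ((w z)⁻¹) ^ 2)) * g i z := by
    intro i
    have h := integral_bilinear_hasLineDerivAt_right_eq_neg_left_of_integrable (μ := volume)
      (B := ContinuousLinearMap.mul ℝ ℝ) (v := ee i)
      (f := fun z => φ z * (φ z * (w z)⁻¹))
      (f' := fun z => 2 * φ z * p i z * (w z)⁻¹ - φ z * (φ z * g i z * ((w z)⁻¹) ^ 2))
      (g := g i) (g' := l i) ?_ ?_ ?_ ?_ ?_
    · simp only [ContinuousLinearMap.mul_apply'] at h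
      exact h
    · -- integrability of f' * g
      have h1 : Integrable fun z => φ z * ((2 * p i z * (w z)⁻¹ - (φ z * g i z * ((w z)⁻¹) ^ 2)) * g i z) := by
        apply integrable_mul_of_tsupport hV hφ.continuous hcs hsupp
        apply ContinuousOn.mul _ (hw.cg i)
        apply ContinuousOn.sub
        · exact ((continuous_const.mul (hpc i)).continuousOn).mul hwinv
        · exact (hφ.continuous.continuousOn.mul (hw.cg i)).mul (hwinv.pow 2)
      refine h1.congr (Filter.Eventually.of_forall fun z => ?_)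
      simp only [ContinuousLinearMap.mul_apply']
      ring
    · have h1 : Integrable fun z => φ z * ((φ z * (w z)⁻¹) * l i z) := by
        apply integrable_mul_of_tsupport hV hφ.continuous hcs hsupp
        exact (hφ.continuous.continuousOn.mul hwinv).mul (hw.cl i)
      refine h1.congr (Filter.Eventually.of_forall fun z => ?_)
      simp only [ContinuousLinearMap.mul_apply']
      ring
    · have h1 : Integrable fun z => φ z * ((φ z * (w z)⁻¹) * g i z) := by
        apply integrable_mul_of_tsupport hV hφ.continuous hcs hsupp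
        exact (hφ.continuous.continuousOn.mul hwinv).mul (hw.cg i)
      refine h1.congr (Filter.Eventually.of_forall fun z => ?_)
      simp only [ContinuousLinearMap.mul_apply']
      ring
    · intro z _
      by_cases hz : z ∈ tsupport φ
      · have hzV := hsupp hz
        have d1 := hpd i z
        have d2 := hw.dw z hzV i
        have hne : w (z + (0 : ℝ) • ee i) ≠ 0 := by simpa using (hpos z hzV).ne'
        unfold HasLineDerivAt at d1 d2 ⊢
        have d3 := d1.mul (d1.mul (d2.inv hne))
        have h0 : z + (0 : ℝ) • ee i = z := by simp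
        refine d3.congr_deriv ?_
        simp only [h0]
        simp only [Pi.mul_apply, Pi.inv_apply, h0]
        have hwz := (hpos z hzV).ne'
        field_simp
        ring
      · have h1 := notMem_tsupport_iff_eventuallyEq.1 hz
        have h2 : (fun z => φ z * (φ z * (w z)⁻¹)) =ᶠ[nhds z] fun _ => 0 := by
          filter_upwards [h1] with y hy
          simp [hy]
        have h3 : φ z = 0 := h1.self_of_nhds
        have h4 : HasFDerivAt (fun z => φ z * (φ z * (w z)⁻¹)) (0 : E3 →L[ℝ] ℝ) z :=
          (hasFDerivAt_const (0 : ℝ) z).congr_of_eventuallyEq h2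
        have h5 := h4.hasLineDerivAt (ee i)
        simpa [h3] using h5
    · intro z hz
      have hz' : z ∈ tsupport φ := tsupport_mul_subset_left hz
      exact hw.dg z (hsupp hz') i
  -- pointwise inequality
  have hpt : ∀ z, Λ * φ z ^ 2 ≤ ‖fderiv ℝ φ z‖ ^ 2
      - ∑ i, ((φ z * (φ z * (w z)⁻¹)) * l i z
        + (2 * φ z * p i z * (w z)⁻¹ - φ z * (φ z * g i z * ((w z)⁻¹) ^ 2)) * g i z) := by
    intro z
    by_cases hz : z ∈ tsupport φ
    · have hzV := hsupp hz
      have hwz := hpos z hzV
      have h1 := hlap z hzV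
      rw [norm_sq_clm]
      have h2 : φ z ^ 2 * (w z)⁻¹ * ∑ i, l i z ≤ φ z ^ 2 * (w z)⁻¹ * (- Λ * w z) :=
        mul_le_mul_of_nonneg_left h1 (by positivity)
      have h3 : φ z ^ 2 * (w z)⁻¹ * (- Λ * w z) = - Λ * φ z ^ 2 := by field_simp
      rw [h3] at h2
      have h4 : 0 ≤ ∑ i, (p i z - φ z * (w z)⁻¹ * g i z) ^ 2 := Finset.sum_nonneg fun i _ => sq_nonneg _
      simp only [Fin.sum_univ_three] at h2 h4 ⊢
      simp only [hp] at h4 ⊢
      nlinarith [h2, h4]
    · have h1 := notMem_tsupport_iff_eventuallyEq.1 hz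
      have h3 : φ z = 0 := h1.self_of_nhds
      simp [h3]
  have hI1 : Integrable fun z => ‖fderiv ℝ φ z‖ ^ 2 := hφ.integrable_energy
  have hI2 : Integrable fun z => φ z ^ 2 := hφ.integrable_mass
  have hJ1 : ∀ i, Integrable fun z => (φ z * (φ z * (w z)⁻¹)) * l i z := by
    intro i
    have h1 : Integrable fun z => φ z * ((φ z * (w z)⁻¹) * l i z) := by
      apply integrable_mul_of_tsupport hV hφ.continuous hcs hsupp
      exact (hφ.continuous.continuousOn.mul hwinv).mul (hw.cl i)
    refine h1.congr (Filter.Eventually.of_forall fun z => ?_)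
    ring
  have hJ2 : ∀ i, Integrable fun z =>
      (2 * φ z * p i z * (w z)⁻¹ - φ z * (φ z * g i z * ((w z)⁻¹) ^ 2)) * g i z := by
    intro i
    have h1 : Integrable fun z => φ z * ((2 * p i z * (w z)⁻¹ - (φ z * g i z * ((w z)⁻¹) ^ 2)) * g i z) := by
      apply integrable_mul_of_tsupport hV hφ.continuous hcs hsupp
      apply ContinuousOn.mul _ (hw.cg i)
      apply ContinuousOn.sub
      · exact ((continuous_const.mul (hpc i)).continuousOn).mul hwinv
      · exact (hφ.continuous.continuousOn.mul (hw.cg i)).mul (hwinv.pow 2)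
    refine h1.congr (Filter.Eventually.of_forall fun z => ?_)
    ring
  set S : E3 → ℝ := fun z => ∑ i, ((φ z * (φ z * (w z)⁻¹)) * l i z
        + (2 * φ z * p i z * (w z)⁻¹ - φ z * (φ z * g i z * ((w z)⁻¹) ^ 2)) * g i z) with hS
  have hJ : ∀ i ∈ (Finset.univ : Finset (Fin 3)), Integrable fun z =>
      ((φ z * (φ z * (w z)⁻¹)) * l i z
        + (2 * φ z * p i z * (w z)⁻¹ - φ z * (φ z * g i z * ((w z)⁻¹) ^ 2)) * g i z) :=
    fun i _ => (hJ1 i).add (hJ2 i)
  have hSint : Integrable S := integrable_finsetSum _ hJ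
  have hS0 : ∫ z, S z = 0 := by
    rw [hS, integral_finsetSum _ hJ]
    have h7 : ∀ i, ∫ z, ((φ z * (φ z * (w z)⁻¹)) * l i z
        + (2 * φ z * p i z * (w z)⁻¹ - φ z * (φ z * g i z * ((w z)⁻¹) ^ 2)) * g i z) = 0 := by
      intro i
      rw [integral_add (hJ1 i) (hJ2 i), key i]
      ring
    exact Finset.sum_eq_zero fun i _ => h7 i
  have hint : ∫ z, Λ * φ z ^ 2 ≤ ∫ z, (‖fderiv ℝ φ z‖ ^ 2 - S z) :=
    integral_mono (hI2.const_mul Λ) (hI1.sub hSint) hpt
  rw [integral_const_mul, integral_sub hI1 hSint, hS0, sub_zero] at hint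
  exact hint

end Pool.Agent.Helper73.Obst
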