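import Mathlib
import Pool.Agent.Helper73.Obst.Barta

set_option autoImplicit false

namespace Pool.Agent.Helper73.Obst

open MeasureTheory Set
open scoped ContDiff

lemma contDiff_primitive {k : ℝ → ℝ} (hk : ContDiff ℝ ∞ k) (a : ℝ) :
    ContDiff ℝ ∞ (fun t => ∫ s in a..t, k s) ∧ ∀ t, HasDerivAt (fun t => ∫ s in a..t, k s) (k t) t := by
  have h1 : ∀ t, HasDerivAt (fun t => ∫ s in a..t, k s) (k t) t := fun t =>
    intervalIntegral.integral_hasDerivAt_right (hk.continuous.intervalIntegrable _ _)
      (hk.continuous.stronglyMeasurableAtFilter _ _) hk.continuous.continuousAt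
  refine ⟨?_, h1⟩
  rw [contDiff_infty_iff_deriv]
  refine ⟨fun t => (h1 t).differentiableAt, ?_⟩
  have h2 : deriv (fun t => ∫ s in a..t, k s) = k := by
    funext t; exact (h1 t).deriv
  rw [h2]; exact hk

/-- A smooth capacitary profile: `K = 0` on `(-∞,1]`, `K = 1` on `[101,∞)`, with nearly optimal
energy `∫ s² K'² ≤ 1.03`. -/
theorem exists_profile : ∃ K : ℝ → ℝ, ContDiff ℝ ∞ K ∧ (∀ t, t ≤ 1 → K t = 0) ∧
    (∀ t, 101 ≤ t → K t = 1) ∧ (∀ t, 0 ≤ K t ∧ K t ≤ 1) ∧ (∀ t, 0 ≤ deriv K t) ∧
    (∀ t, t ≤ 1 ∨ 101 ≤ t → deriv K t = 0) ∧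
    (∫ s in Ioi (0 : ℝ), s ^ 2 * (deriv K s) ^ 2 ≤ 103 / 100) ∧
    (∫ s in Ioi (0 : ℝ), s ^ 2 * (deriv K s) ≤ 103) := by
  -- the bump
  let b : ContDiffBump (51 : ℝ) := ⟨49.99, 50, by norm_num, by norm_num⟩
  have hb0 : ∀ s, 0 ≤ b s := fun s => b.nonneg
  have hb1 : ∀ s, b s ≤ 1 := fun s => b.le_one
  have hbz : ∀ s, s ≤ 1 ∨ 101 ≤ s → b s = 0 := by
    intro s hs
    apply b.zero_of_le_dist
    show (50 : ℝ) ≤ dist s 51
    rw [Real.dist_eq]
    rcases hs with hs | hs
    · rw [abs_of_neg (by linarith)]; linarith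
    · rw [abs_of_pos (by linarith)]; linarith
  have hbone : ∀ s, 1.01 ≤ s → s ≤ 100.99 → b s = 1 := by
    intro s h1 h2
    apply b.one_of_mem_closedBall
    show s ∈ Metric.closedBall (51 : ℝ) 49.99
    rw [Metric.mem_closedBall, Real.dist_eq, abs_le]
    constructor <;> norm_num at h1 h2 ⊢ <;> linarith
  -- the density
  let k : ℝ → ℝ := fun s => b s / s ^ 2
  have hkz : ∀ s, s ≤ 1 ∨ 101 ≤ s → k s = 0 := by
    intro s hs; simp only [k]; rw [hbz s hs]; simp
  have hk0 : ∀ s, 0 ≤ k s := fun s => div_nonneg (hb0 s) (sq_nonneg s)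
  have hksm : ContDiff ℝ ∞ k := by
    rw [contDiff_iff_contDiffAt]
    intro s
    rcases eq_or_ne s 0 with rfl | hs
    · have : k =ᶠ[nhds (0 : ℝ)] fun _ => 0 := by
        filter_upwards [Iio_mem_nhds (show (0 : ℝ) < 1 by norm_num)] with t ht
        exact hkz t (Or.inl (le_of_lt ht))
      exact contDiffAt_const.congr_of_eventuallyEq this
    · apply ContDiffAt.div
      · exact b.contDiff.contDiffAt
      · exact contDiffAt_id.pow 2
      · exact pow_ne_zero 2 hs
  have hkc : Continuous k := hksm.continuous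
  set J : ℝ := ∫ s in (1 : ℝ)..101, k s with hJ
  have hJlow : 98 / 100 ≤ J := by
    have h1 : ∫ s in (1.01 : ℝ)..100.99, k s = 1.01⁻¹ - 100.99⁻¹ := by
      have e1 : ∫ s in (1.01 : ℝ)..100.99, k s = ∫ s in (1.01 : ℝ)..100.99, s ^ (-2 : ℤ) := by
        apply intervalIntegral.integral_congr
        intro s hs
        rw [Set.uIcc_of_le (by norm_num)] at hs
        simp only [k]
        rw [hbone s hs.1 hs.2, zpow_neg, one_div]
        norm_cast
      rw [e1, integral_zpow]
      · norm_num
      · right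
        constructor
        · norm_num
        · rw [Set.uIcc_of_le (by norm_num)]
          intro h
          have := h.1
          norm_num at this
    have h2 : ∫ s in (1.01 : ℝ)..100.99, k s ≤ J := by
      rw [hJ]
      apply intervalIntegral.integral_mono_interval (by norm_num) (by norm_num) (by norm_num)
      · exact Filter.Eventually.of_forall hk0
      · exact hkc.intervalIntegrable _ _
    rw [h1] at h2
    norm_num at h2 ⊢
    linarith
  have hJpos : 0 < J := by linarith
  have hJinv : 1 / J ≤ 103 / 100 := by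
    rw [div_le_iff₀ hJpos]; linarith
  obtain ⟨hprim, hprimd⟩ := contDiff_primitive hksm 0
  let K : ℝ → ℝ := fun t => (1 / J) * ∫ s in (0 : ℝ)..t, k s
  have hKd : ∀ t, HasDerivAt K ((1 / J) * k t) t := fun t => (hprimd t).const_mul _
  have hKderiv : ∀ t, deriv K t = (1 / J) * k t := fun t => (hKd t).deriv
  have hKsm : ContDiff ℝ ∞ K := contDiff_const.mul hprim
  have hKmono : Monotone K := by
    apply monotone_of_deriv_nonneg
    · exact fun t => (hKd t).differentiableAt
    · intro t; rw [hKderiv]; exact mul_nonneg (by positivity) (hk0 t)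
  have hK1 : ∀ t, t ≤ 1 → K t = 0 := by
    intro t ht
    simp only [K]
    have : ∫ s in (0 : ℝ)..t, k s = 0 := by
      apply intervalIntegral.integral_zero_ae
      refine Filter.Eventually.of_forall fun s hs => ?_
      apply hkz s (Or.inl _)
      rcases le_total 0 t with h | h
      · rw [Set.uIoc_of_le h] at hs; exact hs.2.trans ht
      · rw [Set.uIoc_of_ge h] at hs; exact hs.2.trans (by norm_num)
    rw [this, mul_zero]
  have hKT : ∀ t, 101 ≤ t → K t = 1 := by
    intro t ht
    simp only [K]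
    have h1 : ∫ s in (0 : ℝ)..t, k s = J := by
      rw [← intervalIntegral.integral_add_adjacent_intervals (b := 1)
        (hkc.intervalIntegrable _ _) (hkc.intervalIntegrable _ _),
        ← intervalIntegral.integral_add_adjacent_intervals (a := 1) (b := 101)
        (hkc.intervalIntegrable _ _) (hkc.intervalIntegrable _ _)]
      have e1 : ∫ s in (0 : ℝ)..1, k s = 0 := by
        apply intervalIntegral.integral_zero_ae
        refine Filter.Eventually.of_forall fun s hs => ?_
        rw [Set.uIoc_of_le (by norm_num)] at hs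
        exact hkz s (Or.inl hs.2)
      have e2 : ∫ s in (101 : ℝ)..t, k s = 0 := by
        apply intervalIntegral.integral_zero_ae
        refine Filter.Eventually.of_forall fun s hs => ?_
        rw [Set.uIoc_of_le ht] at hs
        exact hkz s (Or.inr hs.1.le)
      rw [e1, e2, hJ]; ring
    rw [h1]; field_simp
  -- integrals over the half line
  have hIoi : ∀ G : ℝ → ℝ, Continuous G → (∀ s, s ≤ 1 ∨ 101 ≤ s → G s = 0) →
      ∫ s in Ioi (0 : ℝ), G s = ∫ s in (1 : ℝ)..101, G s := by
    intro G _ hG0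
    rw [intervalIntegral.integral_of_le (by norm_num)]
    apply setIntegral_eq_of_subset_of_forall_sdiff_eq_zero measurableSet_Ioi
    · intro s hs; exact lt_trans (by norm_num) hs.1
    · intro s hs
      apply hG0
      by_contra hcon
      push Not at hcon
      exact hs.2 ⟨hcon.1, hcon.2.le⟩
  have hKdc : Continuous (deriv K) := by
    have : deriv K = fun t => (1 / J) * k t := by funext t; exact hKderiv t
    rw [this]; exact continuous_const.mul hkc
  have hKdz : ∀ t, t ≤ 1 ∨ 101 ≤ t → deriv K t = 0 := by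
    intro t ht; rw [hKderiv, hkz t ht, mul_zero]
  refine ⟨K, hKsm, hK1, hKT, ?_, ?_, hKdz, ?_, ?_⟩
  · intro t
    constructor
    · rcases le_total t 1 with h | h
      · rw [hK1 t h]
      · rw [← hK1 1 le_rfl]; exact hKmono h
    · rcases le_total t 101 with h | h
      · rw [← hKT 101 le_rfl]; exact hKmono h
      · rw [hKT t h]
  · intro t; rw [hKderiv]; exact mul_nonneg (by positivity) (hk0 t)
  · rw [hIoi (fun s => s ^ 2 * (deriv K s) ^ 2) (by fun_prop)
      (fun s hs => by rw [hKdz s hs]; ring)]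
    have h1 : ∫ s in (1 : ℝ)..101, s ^ 2 * (deriv K s) ^ 2 ≤ ∫ s in (1 : ℝ)..101, (1 / J) ^ 2 * k s := by
      apply intervalIntegral.integral_mono_on (by norm_num)
      · exact Continuous.intervalIntegrable (by fun_prop) _ _
      · exact (continuous_const.mul hkc).intervalIntegrable _ _
      · intro s hs
        rw [hKderiv, mul_pow]
        have hs0 : 0 < s := by linarith [hs.1]
        have e1 : s ^ 2 * ((1 / J) ^ 2 * k s ^ 2) = (1 / J) ^ 2 * (k s * (b s)) := by
          simp only [k]; field_simp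
        rw [e1]
        apply mul_le_mul_of_nonneg_left _ (by positivity)
        exact mul_le_of_le_one_right (hk0 s) (hb1 s)
    rw [intervalIntegral.integral_const_mul, ← hJ] at h1
    have h2 : (1 / J) ^ 2 * J = 1 / J := by field_simp
    linarith
  · rw [hIoi (fun s => s ^ 2 * (deriv K s)) (by fun_prop)
      (fun s hs => by rw [hKdz s hs]; ring)]
    have h1 : ∫ s in (1 : ℝ)..101, s ^ 2 * (deriv K s) ≤ ∫ s in (1 : ℝ)..101, (1 / J) := by
      apply intervalIntegral.integral_mono_on (by norm_num)
      · exact Continuous.intervalIntegrable (by fun_prop) _ _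
      · exact intervalIntegrable_const
      · intro s hs
        rw [hKderiv]
        have hs0 : 0 < s := by linarith [hs.1]
        have e1 : s ^ 2 * ((1 / J) * k s) = (1 / J) * (b s) := by
          simp only [k]; field_simp
        rw [e1]
        exact mul_le_of_le_one_right (by positivity) (hb1 s)
    rw [intervalIntegral.integral_const] at h1
    simp only [smul_eq_mul] at h1
    linarith

/-- Smooth truncation: `F = 0` on `(-∞, ε]`, `t - 2ε ≤ F t ≤ t` for `t ≥ 0`, `0 ≤ F' ≤ 1`. -/
theorem exists_trunc {ε : ℝ} (hε : 0 < ε) : ∃ F : ℝ → ℝ, ContDiff ℝ ∞ F ∧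
    (∀ t, t ≤ ε → F t = 0) ∧ (∀ t, 0 ≤ F t) ∧ (∀ t, 0 ≤ t → F t ≤ t) ∧ (∀ t, t - 2 * ε ≤ F t) ∧
    (∀ t, 0 ≤ deriv F t ∧ deriv F t ≤ 1) := by
  let σ : ℝ → ℝ := fun s => Real.smoothTransition (s / ε - 1)
  have hσ : ContDiff ℝ ∞ σ := Real.smoothTransition.contDiff.comp (by fun_prop)
  have hσ0 : ∀ s, 0 ≤ σ s := fun s => Real.smoothTransition.nonneg _
  have hσ1 : ∀ s, σ s ≤ 1 := fun s => Real.smoothTransition.le_one _
  have hσz : ∀ s, s ≤ ε → σ s = 0 := by
    intro s hs
    apply Real.smoothTransition.zero_of_nonpos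
    rw [sub_nonpos, div_le_one hε]; exact hs
  have hσo : ∀ s, 2 * ε ≤ s → σ s = 1 := by
    intro s hs
    apply Real.smoothTransition.one_of_one_le
    rw [le_sub_iff_add_le, le_div_iff₀ hε]; linarith
  obtain ⟨h1, h2⟩ := contDiff_primitive hσ ε
  have hc := hσ.continuous
  have hmono : Monotone (fun t => ∫ s in ε..t, σ s) := by
    apply monotone_of_deriv_nonneg (fun t => (h2 t).differentiableAt)
    intro t; rw [(h2 t).deriv]; exact hσ0 t
  have hz : ∀ t, t ≤ ε → ∫ s in ε..t, σ s = 0 := by
    intro t ht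
    apply intervalIntegral.integral_zero_ae
    refine Filter.Eventually.of_forall fun s hs => ?_
    rw [Set.uIoc_of_ge ht] at hs
    exact hσz s hs.2
  have hnn : ∀ t, 0 ≤ ∫ s in ε..t, σ s := by
    intro t
    rcases le_total t ε with h | h
    · rw [hz t h]
    · have := hmono h
      simp only [intervalIntegral.integral_same] at this
      exact this
  refine ⟨fun t => ∫ s in ε..t, σ s, h1, hz, hnn, ?_, ?_, ?_⟩
  · intro t ht
    show ∫ s in ε..t, σ s ≤ t
    rcases le_total t ε with h | h
    · rw [hz t h]; exact ht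
    · have h3 : ∫ s in ε..t, σ s ≤ ∫ s in ε..t, (1 : ℝ) := by
        apply intervalIntegral.integral_mono_on h (hc.intervalIntegrable _ _) intervalIntegrable_const
        intro s _; exact hσ1 s
      rw [intervalIntegral.integral_const] at h3
      simp only [smul_eq_mul, mul_one] at h3
      linarith
  · intro t
    show t - 2 * ε ≤ ∫ s in ε..t, σ s
    rcases le_total t (2 * ε) with h | h
    · have := hnn t
      linarith
    · have h3 : ∫ s in ε..t, σ s = (∫ s in ε..(2 * ε), σ s) + ∫ s in (2 * ε)..t, σ s :=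
        (intervalIntegral.integral_add_adjacent_intervals (hc.intervalIntegrable _ _)
          (hc.intervalIntegrable _ _)).symm
      have h4 : ∫ s in (2 * ε)..t, σ s = ∫ s in (2 * ε)..t, (1 : ℝ) := by
        apply intervalIntegral.integral_congr
        intro s hs
        rw [Set.uIcc_of_le h] at hs
        exact hσo s hs.1
      rw [intervalIntegral.integral_const] at h4
      simp only [smul_eq_mul, mul_one] at h4
      have h5 := hnn (2 * ε)
      rw [h3, h4]
      linarith
  · intro t
    rw [(h2 t).deriv]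
    exact ⟨hσ0 t, hσ1 t⟩

end Pool.Agent.Helper73.Obst
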