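import Mathlib
import Pool.Agent.Helper73.Obst.Profile

set_option autoImplicit false

namespace Pool.Agent.Helper73.Obst

open MeasureTheory Set
open scoped ContDiff

/-- The area of the unit sphere, `3` times the volume of the unit ball. -/
noncomputable def V3 : ℝ := 3 * (volume.real (Metric.ball (0 : E3) 1))

lemma V3_pos : 0 < V3 := by
  unfold V3
  have h : 0 < volume.real (Metric.ball (0 : E3) 1) :=
    ENNReal.toReal_pos (Metric.measure_ball_pos _ _ one_pos).ne' measure_ball_lt_top.ne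
  positivity

lemma integral_radial (y : E3) (G : ℝ → ℝ) :
    ∫ z : E3, G ‖z - y‖ = V3 * ∫ r in Ioi (0 : ℝ), r ^ 2 * G r := by
  rw [integral_sub_right_eq_self (fun z : E3 => G ‖z‖) y, integral_fun_norm_addHaar volume G]
  simp only [finrank_euclideanSpace, Fintype.card_fin, nsmul_eq_mul, smul_eq_mul, V3]
  norm_num
  ring

lemma contDiff_radial {Q : ℝ → ℝ} {a c : ℝ} (ha : 0 < a) (hQ : ContDiff ℝ ∞ Q)
    (hQ0 : ∀ t, t ≤ a → Q t = c) (y : E3) : ContDiff ℝ ∞ (fun z : E3 => Q ‖z - y‖) := by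
  rw [contDiff_iff_contDiffAt]
  intro z
  by_cases hz : z = y
  · subst hz
    have : (fun w : E3 => Q ‖w - z‖) =ᶠ[nhds z] fun _ => c := by
      filter_upwards [Metric.ball_mem_nhds z ha] with w hw
      rw [Metric.mem_ball, dist_eq_norm] at hw
      exact hQ0 _ hw.le
    exact contDiffAt_const.congr_of_eventuallyEq this
  · have h1 : ContDiffAt ℝ ∞ (fun w : E3 => ‖w - y‖) z :=
      (contDiffAt_id.sub contDiffAt_const).norm ℝ (sub_ne_zero.2 hz)
    exact hQ.contDiffAt.comp z h1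

lemma norm_fderiv_radial {Q : ℝ → ℝ} {a c : ℝ} (ha : 0 < a) (hQ : ContDiff ℝ ∞ Q)
    (hQ0 : ∀ t, t ≤ a → Q t = c) (y z : E3) :
    ‖fderiv ℝ (fun z : E3 => Q ‖z - y‖) z‖ = |deriv Q ‖z - y‖| := by
  by_cases hz : z = y
  · subst hz
    have h1 : (fun w : E3 => Q ‖w - z‖) =ᶠ[nhds z] fun _ => c := by
      filter_upwards [Metric.ball_mem_nhds z ha] with w hw
      rw [Metric.mem_ball, dist_eq_norm] at hw
      exact hQ0 _ hw.le
    rw [h1.fderiv_eq]
    have h2 : Q =ᶠ[nhds ‖z - z‖] fun _ => c := by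
      rw [sub_self, norm_zero]
      filter_upwards [Iio_mem_nhds ha] with t ht
      exact hQ0 _ (le_of_lt ht)
    rw [h2.deriv_eq]
    simp
  · have hd : DifferentiableAt ℝ (fun w : E3 => ‖w‖) (z - y) :=
      (contDiffAt_norm ℝ (sub_ne_zero.2 hz) (n := 1)).differentiableAt (by simp)
    have h1 : HasFDerivAt (fun w : E3 => ‖w - y‖) (fderiv ℝ (fun w : E3 => ‖w‖) (z - y)) z := by
      have h0 : HasFDerivAt (fun w : E3 => w - y) (ContinuousLinearMap.id ℝ E3) z :=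
        (hasFDerivAt_id z).sub_const y
      have h01 := HasFDerivAt.comp z hd.hasFDerivAt h0
      rw [ContinuousLinearMap.comp_id] at h01
      exact h01
    have h2 : HasDerivAt Q (deriv Q ‖z - y‖) ‖z - y‖ :=
      (hQ.differentiable (by simp) _).hasDerivAt
    have h3 := h2.comp_hasFDerivAt z h1
    have h4 : (Q ∘ fun w : E3 => ‖w - y‖) = fun w : E3 => Q ‖w - y‖ := rfl
    rw [h4] at h3
    rw [h3.fderiv, norm_smul, norm_fderiv_norm hd, mul_one, Real.norm_eq_abs]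

/-- Cutting a small ball out of the support of a test function. -/
theorem addBall {U : Set E3} {φ₀ : E3 → ℝ} (hφ : IsTest U φ₀) (y : E3) {δ δ₁ m₀ m₁ : ℝ}
    (hδ0 : 0 ≤ δ) (hδ : δ < δ₁)
    (hm₀ : ∀ z, ‖z - y‖ ≤ 101 * δ₁ → |φ₀ z| ≤ m₀)
    (hm₁ : ∀ z, ‖z - y‖ ≤ 101 * δ₁ → ‖fderiv ℝ φ₀ z‖ ≤ m₁) :
    ∃ φ, IsTest (U \ Metric.closedBall y δ) φ ∧ (∀ z, 101 * δ₁ < ‖z - y‖ → φ z = φ₀ z) ∧
      (∀ z, 101 * δ₁ < ‖z - y‖ → fderiv ℝ φ z = fderiv ℝ φ₀ z) ∧
      energy φ ≤ energy φ₀ + V3 * (m₀ ^ 2 * (103 / 100) * δ₁ + 2 * m₀ * m₁ * 103 * δ₁ ^ 2) ∧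
      mass φ₀ - V3 * (m₀ ^ 2 * (101 * δ₁) ^ 3 / 3) ≤ mass φ := by
  obtain ⟨K, hKsm, hK0, hK1, hKb, hKd0, hKdz, hKi2, hKi1⟩ := exists_profile
  have hδ₁ : 0 < δ₁ := lt_of_le_of_lt hδ0 hδ
  have hm₀0 : 0 ≤ m₀ := (abs_nonneg _).trans (hm₀ y (by simp; positivity))
  have hm₁0 : 0 ≤ m₁ := (norm_nonneg _).trans (hm₁ y (by simp; positivity))
  -- the scaled profile
  set Q : ℝ → ℝ := fun t => K (t / δ₁) with hQdef
  have hQsm : ContDiff ℝ ∞ Q := hKsm.comp (contDiff_id.div_const _)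
  have hQ0 : ∀ t, t ≤ δ₁ → Q t = 0 := fun t ht => hK0 _ ((div_le_one hδ₁).2 ht)
  have hQ1 : ∀ t, 101 * δ₁ ≤ t → Q t = 1 := fun t ht => hK1 _ ((le_div_iff₀ hδ₁).2 ht)
  have hQb : ∀ t, 0 ≤ Q t ∧ Q t ≤ 1 := fun t => hKb _
  have hQd : ∀ t, deriv Q t = deriv K (t / δ₁) / δ₁ := by
    intro t
    have h1 : HasDerivAt K (deriv K (t / δ₁)) (t / δ₁) :=
      (hKsm.differentiable (by simp) _).hasDerivAt
    have h2 : HasDerivAt (fun t : ℝ => t / δ₁) (1 / δ₁) t := (hasDerivAt_id t).div_const _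
    have h3 := h1.comp t h2
    have h4 : Q = K ∘ fun t : ℝ => t / δ₁ := rfl
    rw [h4, h3.deriv]; ring
  have hQd0 : ∀ t, 0 ≤ deriv Q t := by
    intro t; rw [hQd]; exact div_nonneg (hKd0 _) hδ₁.le
  have hQdz : ∀ t, 101 * δ₁ ≤ t → deriv Q t = 0 := by
    intro t ht
    rw [hQd, hKdz _ (Or.inr ((le_div_iff₀ hδ₁).2 ht)), zero_div]
  set χ : E3 → ℝ := fun z => Q ‖z - y‖ with hχ
  have hχsm : ContDiff ℝ ∞ χ := contDiff_radial hδ₁ hQsm hQ0 y
  have hχd : ∀ z, ‖fderiv ℝ χ z‖ = deriv Q ‖z - y‖ := by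
    intro z
    rw [hχ, norm_fderiv_radial hδ₁ hQsm hQ0 y z, abs_of_nonneg (hQd0 _)]
  -- integrals
  have hI2 : ∫ z : E3, (deriv Q ‖z - y‖) ^ 2 ≤ V3 * (103 / 100 * δ₁) := by
    rw [integral_radial y (fun r => (deriv Q r) ^ 2)]
    apply mul_le_mul_of_nonneg_left _ V3_pos.le
    have h1 := integral_comp_mul_left_Ioi (fun r => r ^ 2 * (deriv Q r) ^ 2) 0 hδ₁
    rw [mul_zero, smul_eq_mul] at h1
    have h2 : (fun x => (δ₁ * x) ^ 2 * (deriv Q (δ₁ * x)) ^ 2) = fun x => x ^ 2 * (deriv K x) ^ 2 := by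
      funext x
      rw [hQd, mul_div_cancel_left₀ _ hδ₁.ne']
      field_simp
    rw [h2] at h1
    have h3 : ∫ r in Ioi (0 : ℝ), r ^ 2 * (deriv Q r) ^ 2
        = δ₁ * ∫ x in Ioi (0 : ℝ), x ^ 2 * (deriv K x) ^ 2 := by
      rw [h1]; field_simp
    rw [h3]
    nlinarith [hKi2, hδ₁]
  have hI1 : ∫ z : E3, deriv Q ‖z - y‖ ≤ V3 * (103 * δ₁ ^ 2) := by
    rw [integral_radial y (fun r => deriv Q r)]
    apply mul_le_mul_of_nonneg_left _ V3_pos.le
    have h1 := integral_comp_mul_left_Ioi (fun r => r ^ 2 * (deriv Q r)) 0 hδ₁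
    rw [mul_zero, smul_eq_mul] at h1
    have h2 : (fun x => (δ₁ * x) ^ 2 * (deriv Q (δ₁ * x))) = fun x => δ₁ * (x ^ 2 * (deriv K x)) := by
      funext x
      rw [hQd, mul_div_cancel_left₀ _ hδ₁.ne']
      field_simp
    rw [h2, integral_const_mul] at h1
    have h3 : ∫ r in Ioi (0 : ℝ), r ^ 2 * (deriv Q r)
        = δ₁ ^ 2 * ∫ x in Ioi (0 : ℝ), x ^ 2 * (deriv K x) := by
      have h4 : δ₁ ^ 2 * ∫ x in Ioi (0 : ℝ), x ^ 2 * (deriv K x)
          = δ₁ * (δ₁ * ∫ x in Ioi (0 : ℝ), x ^ 2 * (deriv K x)) := by ring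
      rw [h4, h1]; field_simp
    rw [h3]
    nlinarith [hKi1, sq_nonneg δ₁]
  -- the new test function
  have hcs : HasCompactSupport (fun z => φ₀ z * χ z) := hφ.2.1.mul_right
  have hsm : ContDiff ℝ ∞ (fun z => φ₀ z * χ z) := hφ.contDiff.mul hχsm
  have hts : tsupport (fun z => φ₀ z * χ z) ⊆ U \ Metric.closedBall y δ := by
    intro z hz
    refine ⟨hφ.2.2 (tsupport_mul_subset_left hz), ?_⟩
    intro hzb
    rw [Metric.mem_closedBall, dist_eq_norm] at hzb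
    apply (notMem_tsupport_iff_eventuallyEq.2 _) hz
    filter_upwards [Metric.ball_mem_nhds z (show 0 < δ₁ - δ by linarith)] with w hw
    rw [Metric.mem_ball, dist_eq_norm] at hw
    have h1 : ‖w - y‖ ≤ δ₁ := by
      calc ‖w - y‖ = ‖(w - z) + (z - y)‖ := by congr 1; abel
        _ ≤ ‖w - z‖ + ‖z - y‖ := norm_add_le _ _
        _ ≤ δ₁ := by linarith
    show φ₀ w * Q ‖w - y‖ = 0
    rw [hQ0 _ h1, mul_zero]
  have hT : IsTest (U \ Metric.closedBall y δ) (fun z => φ₀ z * χ z) := ⟨hsm, hcs, hts⟩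
  have hfd : ∀ z, fderiv ℝ (fun z => φ₀ z * χ z) z = φ₀ z • fderiv ℝ χ z + χ z • fderiv ℝ φ₀ z := by
    intro z
    exact fderiv_fun_mul (hφ.differentiable z) (hχsm.differentiable (by simp) z)
  refine ⟨fun z => φ₀ z * χ z, hT, ?_, ?_, ?_, ?_⟩
  · intro z hz
    show φ₀ z * Q ‖z - y‖ = φ₀ z
    rw [hQ1 _ hz.le, mul_one]
  · intro z hz
    have h1 : (fun z => φ₀ z * χ z) =ᶠ[nhds z] φ₀ := by
      have hop : IsOpen {w : E3 | 101 * δ₁ < ‖w - y‖} :=
        isOpen_lt continuous_const (by fun_prop)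
      filter_upwards [hop.mem_nhds hz] with w hw
      show φ₀ w * Q ‖w - y‖ = φ₀ w
      rw [hQ1 _ (le_of_lt hw), mul_one]
    exact h1.fderiv_eq
  · -- energy
    have hpt : ∀ z, ‖fderiv ℝ (fun z => φ₀ z * χ z) z‖ ^ 2 ≤ ‖fderiv ℝ φ₀ z‖ ^ 2
        + (m₀ ^ 2 * (deriv Q ‖z - y‖) ^ 2 + (2 * m₀ * m₁) * deriv Q ‖z - y‖) := by
      intro z
      rw [hfd]
      have h1 : ‖φ₀ z • fderiv ℝ χ z + χ z • fderiv ℝ φ₀ z‖
          ≤ |φ₀ z| * deriv Q ‖z - y‖ + ‖fderiv ℝ φ₀ z‖ := by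
        refine (norm_add_le _ _).trans ?_
        rw [norm_smul, norm_smul, hχd, Real.norm_eq_abs, Real.norm_eq_abs]
        have h2 : |χ z| ≤ 1 := by
          rw [abs_of_nonneg (hQb _).1]; exact (hQb _).2
        have h3 : |χ z| * ‖fderiv ℝ φ₀ z‖ ≤ 1 * ‖fderiv ℝ φ₀ z‖ :=
          mul_le_mul_of_nonneg_right h2 (norm_nonneg _)
        linarith
      have h0 := norm_nonneg (φ₀ z • fderiv ℝ χ z + χ z • fderiv ℝ φ₀ z)
      have h2 : ‖φ₀ z • fderiv ℝ χ z + χ z • fderiv ℝ φ₀ z‖ ^ 2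
          ≤ (|φ₀ z| * deriv Q ‖z - y‖ + ‖fderiv ℝ φ₀ z‖) ^ 2 := pow_le_pow_left₀ h0 h1 2
      refine h2.trans ?_
      by_cases hz : ‖z - y‖ ≤ 101 * δ₁
      · have a0 := hm₀ z hz
        have a1 := hm₁ z hz
        have a2 := hQd0 ‖z - y‖
        have a3 := abs_nonneg (φ₀ z)
        have a4 := norm_nonneg (fderiv ℝ φ₀ z)
        have b1 : (|φ₀ z|) ^ 2 * (deriv Q ‖z - y‖) ^ 2 ≤ m₀ ^ 2 * (deriv Q ‖z - y‖) ^ 2 :=
          mul_le_mul_of_nonneg_right (pow_le_pow_left₀ a3 a0 2) (sq_nonneg _)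
        have b2 : |φ₀ z| * ‖fderiv ℝ φ₀ z‖ ≤ m₀ * m₁ := mul_le_mul a0 a1 a4 hm₀0
        have b3 : (|φ₀ z| * ‖fderiv ℝ φ₀ z‖) * deriv Q ‖z - y‖ ≤ (m₀ * m₁) * deriv Q ‖z - y‖ :=
          mul_le_mul_of_nonneg_right b2 a2
        nlinarith [b1, b3]
      · push Not at hz
        rw [hQdz _ hz.le]
        simp
    have hint1 : Integrable (fun z : E3 => (deriv Q ‖z - y‖) ^ 2) := by
      have h1 : Continuous (fun z : E3 => (deriv Q ‖z - y‖) ^ 2) := by
        have := hQsm.continuous_deriv (by simp)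
        fun_prop
      apply h1.integrable_of_hasCompactSupport
      apply HasCompactSupport.intro (isCompact_closedBall y (101 * δ₁))
      intro z hz
      rw [Metric.mem_closedBall, dist_eq_norm, not_le] at hz
      rw [hQdz _ hz.le]; simp
    have hint2 : Integrable (fun z : E3 => (deriv Q ‖z - y‖)) := by
      have h1 : Continuous (fun z : E3 => (deriv Q ‖z - y‖)) := by
        have := hQsm.continuous_deriv (by simp)
        fun_prop
      apply h1.integrable_of_hasCompactSupport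
      apply HasCompactSupport.intro (isCompact_closedBall y (101 * δ₁))
      intro z hz
      rw [Metric.mem_closedBall, dist_eq_norm, not_le] at hz
      rw [hQdz _ hz.le]
    have h5 : energy (fun z => φ₀ z * χ z) ≤ ∫ z, (‖fderiv ℝ φ₀ z‖ ^ 2
        + (m₀ ^ 2 * (deriv Q ‖z - y‖) ^ 2 + (2 * m₀ * m₁) * deriv Q ‖z - y‖)) := by
      apply integral_mono hT.integrable_energy
      · exact hφ.integrable_energy.add ((hint1.const_mul _).add (hint2.const_mul _))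
      · exact hpt
    have hint3 : Integrable (fun z : E3 => m₀ ^ 2 * (deriv Q ‖z - y‖) ^ 2
        + (2 * m₀ * m₁) * deriv Q ‖z - y‖) := (hint1.const_mul _).add (hint2.const_mul _)
    rw [integral_add hφ.integrable_energy hint3,
      integral_add (hint1.const_mul _) (hint2.const_mul _), integral_const_mul,
      integral_const_mul] at h5
    have h6 : m₀ ^ 2 * ∫ z : E3, (deriv Q ‖z - y‖) ^ 2 ≤ m₀ ^ 2 * (V3 * (103 / 100 * δ₁)) :=
      mul_le_mul_of_nonneg_left hI2 (sq_nonneg _)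
    have h7 : (2 * m₀ * m₁) * ∫ z : E3, (deriv Q ‖z - y‖) ≤ (2 * m₀ * m₁) * (V3 * (103 * δ₁ ^ 2)) :=
      mul_le_mul_of_nonneg_left hI1 (by positivity)
    have h8 : energy φ₀ = ∫ z, ‖fderiv ℝ φ₀ z‖ ^ 2 := rfl
    rw [← h8] at h5
    calc _ ≤ _ := h5
      _ ≤ energy φ₀ + (m₀ ^ 2 * (V3 * (103 / 100 * δ₁)) + (2 * m₀ * m₁) * (V3 * (103 * δ₁ ^ 2))) := by
        linarith
      _ = _ := by ring
  · -- mass
    have hpt : ∀ z, φ₀ z ^ 2 - m₀ ^ 2 * (Metric.closedBall y (101 * δ₁)).indicator (fun _ => (1 : ℝ)) z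
        ≤ (φ₀ z * χ z) ^ 2 := by
      intro z
      by_cases hz : ‖z - y‖ ≤ 101 * δ₁
      · rw [indicator_of_mem (by rwa [Metric.mem_closedBall, dist_eq_norm])]
        have h1 := hm₀ z hz
        have h2 : φ₀ z ^ 2 ≤ m₀ ^ 2 := by
          rw [← sq_abs]; exact pow_le_pow_left₀ (abs_nonneg _) h1 2
        have h3 := sq_nonneg (φ₀ z * χ z)
        linarith
      · rw [indicator_of_notMem (by rwa [Metric.mem_closedBall, dist_eq_norm])]
        push Not at hz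
        have : χ z = 1 := hQ1 _ hz.le
        rw [this]; simp
    have hint : Integrable ((Metric.closedBall y (101 * δ₁)).indicator (fun _ : E3 => (1 : ℝ))) := by
      rw [integrable_indicator_iff measurableSet_closedBall]
      exact integrableOn_const (measure_closedBall_lt_top).ne
    have h5 : ∫ z, (φ₀ z ^ 2 - m₀ ^ 2 * (Metric.closedBall y (101 * δ₁)).indicator (fun _ => (1 : ℝ)) z)
        ≤ mass (fun z => φ₀ z * χ z) := by
      apply integral_mono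
      · exact hφ.integrable_mass.sub (hint.const_mul _)
      · exact hT.integrable_mass
      · exact hpt
    rw [integral_sub hφ.integrable_mass (hint.const_mul _), integral_const_mul,
      integral_indicator measurableSet_closedBall] at h5
    simp only [integral_const, smul_eq_mul, mul_one, measureReal_restrict_apply_univ] at h5
    have h6 : volume.real (Metric.closedBall y (101 * δ₁)) = V3 * (101 * δ₁) ^ 3 / 3 := by
      unfold V3
      rw [measureReal_def, Measure.addHaar_closedBall _ _ (by positivity), ENNReal.toReal_mul,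
        ENNReal.toReal_ofReal (by positivity), finrank_euclideanSpace, Fintype.card_fin,
        measureReal_def]
      ring
    rw [h6] at h5
    have h7 : mass φ₀ = ∫ z, φ₀ z ^ 2 := rfl
    rw [← h7] at h5
    calc _ = mass φ₀ - m₀ ^ 2 * (V3 * (101 * δ₁) ^ 3 / 3) := by ring
      _ ≤ _ := h5

end Pool.Agent.Helper73.Obst
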