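import Mathlib
import Pool.Agent.Helper73.Obst.Hole

set_option autoImplicit false

namespace Pool.Agent.Helper73.Obst

open MeasureTheory Set
open scoped ContDiff

lemma integral_cos_sq_aux {k R : ℝ} (hk : 0 < k) (hkR : k * (R - 1) = Real.pi) :
    ∫ r in (1 : ℝ)..R, Real.cos (k * (r - 1)) ^ 2 = (R - 1) / 2 := by
  have hd : ∀ r ∈ Set.uIcc 1 R, HasDerivAt
      (fun r : ℝ => (r - 1) / 2 + Real.sin (2 * (k * (r - 1))) / (4 * k))
      (Real.cos (k * (r - 1)) ^ 2) r := by
    intro r _
    have h1 : HasDerivAt (fun r : ℝ => 2 * (k * (r - 1))) (2 * k) r := by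
      have := (((hasDerivAt_id r).sub_const 1).const_mul k).const_mul 2
      simpa using this
    have h2 := (Real.hasDerivAt_sin (2 * (k * (r - 1)))).comp r h1
    have h3 : HasDerivAt (fun r : ℝ => (r - 1) / 2) (1 / 2) r :=
      ((hasDerivAt_id r).sub_const 1).div_const 2
    have h4 := h3.add (h2.div_const (4 * k))
    refine h4.congr_deriv ?_
    rw [Real.cos_two_mul]
    field_simp
    ring
  rw [intervalIntegral.integral_eq_sub_of_hasDerivAt hd
    (Continuous.intervalIntegrable (by fun_prop) _ _)]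
  rw [hkR, Real.sin_two_pi]
  simp

lemma integral_sin_sq_aux {k R : ℝ} (hk : 0 < k) (hkR : k * (R - 1) = Real.pi) :
    ∫ r in (1 : ℝ)..R, Real.sin (k * (r - 1)) ^ 2 = (R - 1) / 2 := by
  have h1 : (fun r : ℝ => Real.sin (k * (r - 1)) ^ 2)
      = fun r : ℝ => 1 - Real.cos (k * (r - 1)) ^ 2 := by
    funext r; have := Real.sin_sq_add_cos_sq (k * (r - 1)); linarith
  rw [h1, intervalIntegral.integral_sub intervalIntegrable_const
    (Continuous.intervalIntegrable (by fun_prop) _ _), integral_cos_sq_aux hk hkR,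
    intervalIntegral.integral_const]
  simp only [smul_eq_mul]; ring

/-- A radial test function on the spherical shell `1 < |z| < R`: a truncation of the first
eigenfunction. -/
theorem exists_base {R ε : ℝ} (hR : 3 ≤ R) (hε : 0 < ε) (hε1 : ε ≤ 1 / 2) : ∃ ψ : E3 → ℝ,
    IsTest (Metric.ball 0 R \ Metric.closedBall 0 1) ψ ∧
    energy ψ ≤ V3 * ((R - 1) / 2) ∧
    V3 * ((R - 1) ^ 3 / (2 * Real.pi ^ 2) - 4 * ε * (R - 1) ^ 2 / Real.pi) ≤ mass ψ ∧
    (∀ z, 1 ≤ ‖z‖ → ‖z‖ ≤ R → |ψ z| ≤ (‖z‖ - 1) / ‖z‖) ∧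
    (∀ z, 1 ≤ ‖z‖ → ‖z‖ ≤ 2 → ‖fderiv ℝ ψ z‖ ≤ 2) := by
  obtain ⟨F, hFsm, hFz, hF0, hFle, hFge, hFd⟩ := exists_trunc hε
  have hR1 : 0 < R - 1 := by linarith
  set k : ℝ := Real.pi / (R - 1) with hkdef
  have hk : 0 < k := div_pos Real.pi_pos hR1
  have hkR : k * (R - 1) = Real.pi := by rw [hkdef]; field_simp
  set S : ℝ → ℝ := fun r => Real.sin (k * (r - 1)) / k with hS
  have hSsm : ContDiff ℝ ∞ S := by
    rw [hS]
    apply ContDiff.div_const
    exact Real.contDiff_sin.comp (by fun_prop)
  have hS0 : ∀ r, 1 ≤ r → r ≤ R → 0 ≤ S r := by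
    intro r h1 h2
    apply div_nonneg _ hk.le
    apply Real.sin_nonneg_of_nonneg_of_le_pi
    · exact mul_nonneg hk.le (by linarith)
    · rw [← hkR]; exact mul_le_mul_of_nonneg_left (by linarith) hk.le
  have hSle : ∀ r, 1 ≤ r → S r ≤ r - 1 := by
    intro r h1
    show Real.sin (k * (r - 1)) / k ≤ r - 1
    rw [div_le_iff₀ hk]
    have := Real.sin_le (show 0 ≤ k * (r - 1) from mul_nonneg hk.le (by linarith))
    linarith
  have hSle2 : ∀ r, r ≤ R → S r ≤ R - r := by
    intro r h1
    show Real.sin (k * (r - 1)) / k ≤ R - r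
    rw [div_le_iff₀ hk]
    have h2 : k * (r - 1) = Real.pi - k * (R - r) := by rw [← hkR]; ring
    rw [h2, Real.sin_pi_sub]
    have := Real.sin_le (show 0 ≤ k * (R - r) from mul_nonneg hk.le (by linarith))
    linarith
  have hSk : ∀ r, S r ≤ 1 / k := by
    intro r
    exact div_le_div_of_nonneg_right (Real.sin_le_one _) hk.le
  have hSd : ∀ r, HasDerivAt S (Real.cos (k * (r - 1))) r := by
    intro r
    have h1 : HasDerivAt (fun r : ℝ => k * (r - 1)) k r := by
      have := ((hasDerivAt_id r).sub_const 1).const_mul k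
      simpa using this
    have h2 := ((Real.hasDerivAt_sin (k * (r - 1))).comp r h1).div_const k
    refine h2.congr_deriv ?_
    field_simp
  classical
  set P : ℝ → ℝ := fun r => if 1 ≤ r ∧ r ≤ R then F (S r) else 0 with hP
  have hPz1 : ∀ r, r ≤ 1 + ε → P r = 0 := by
    intro r hr
    simp only [hP]
    split_ifs with h
    · exact hFz _ ((hSle r h.1).trans (by linarith))
    · rfl
  have hPz2 : ∀ r, R - ε ≤ r → P r = 0 := by
    intro r hr
    simp only [hP]
    split_ifs with h
    · exact hFz _ ((hSle2 r h.2).trans (by linarith))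
    · rfl
  have hPin : ∀ r, 1 ≤ r → r ≤ R → P r = F (S r) := by
    intro r h1 h2
    simp only [hP]
    rw [if_pos ⟨h1, h2⟩]
  have hPev : ∀ r, 1 < r → r < R → P =ᶠ[nhds r] fun r => F (S r) := by
    intro r h1 h2
    filter_upwards [Ioo_mem_nhds h1 h2] with t ht
    exact hPin t ht.1.le ht.2.le
  have hPev1 : ∀ r, r < 1 + ε → P =ᶠ[nhds r] fun _ => 0 := by
    intro r h1
    filter_upwards [Iio_mem_nhds h1] with t ht
    exact hPz1 t (le_of_lt ht)
  have hPev2 : ∀ r, R - ε < r → P =ᶠ[nhds r] fun _ => 0 := by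
    intro r h1
    filter_upwards [Ioi_mem_nhds h1] with t ht
    exact hPz2 t (le_of_lt ht)
  have hPsm : ContDiff ℝ ∞ P := by
    rw [contDiff_iff_contDiffAt]
    intro r
    rcases lt_or_ge r (1 + ε) with h1 | h1
    · exact contDiffAt_const.congr_of_eventuallyEq (hPev1 r h1)
    · rcases lt_or_ge (R - ε) r with h2 | h2
      · exact contDiffAt_const.congr_of_eventuallyEq (hPev2 r h2)
      · exact (hFsm.comp hSsm).contDiffAt.congr_of_eventuallyEq
          (hPev r (by linarith) (by linarith))
  have hPd : ∀ r, HasDerivAt P (deriv P r) r := fun r =>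
    (hPsm.differentiable (by simp) r).hasDerivAt
  have hP0 : ∀ r, 0 ≤ P r := by
    intro r
    simp only [hP]
    split_ifs
    · exact hF0 _
    · exact le_rfl
  have hPle : ∀ r, 1 ≤ r → r ≤ R → P r ≤ r - 1 := by
    intro r h1 h2
    rw [hPin r h1 h2]
    exact (hFle _ (hS0 r h1 h2)).trans (hSle r h1)
  have hPdle : ∀ r, 1 ≤ r → r ≤ R → (deriv P r) ^ 2 ≤ Real.cos (k * (r - 1)) ^ 2 := by
    intro r h1 h2
    rcases h1.lt_or_eq with h1' | h1'
    · rcases h2.lt_or_eq with h2' | h2'
      · rw [(hPev r h1' h2').deriv_eq]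
        have hFdd : HasDerivAt F (deriv F (S r)) (S r) :=
          (hFsm.differentiable (by simp) _).hasDerivAt
        have h3 := hFdd.comp r (hSd r)
        have h4 : (fun r => F (S r)) = F ∘ S := rfl
        rw [h4, h3.deriv, mul_pow]
        have h5 := hFd (S r)
        have h6 : deriv F (S r) ^ 2 ≤ 1 := by nlinarith [h5.1, h5.2]
        exact mul_le_of_le_one_left (sq_nonneg _) h6
      · rw [(hPev2 r (by linarith)).deriv_eq]
        simp
        positivity
    · rw [(hPev1 r (by linarith)).deriv_eq]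
      simp
      positivity
  -- the quotient
  set Q : ℝ → ℝ := fun r => P r / r with hQ
  have hQz : ∀ r, r ≤ 1 + ε → Q r = 0 := by
    intro r hr; show P r / r = 0; rw [hPz1 r hr, zero_div]
  have hQz2 : ∀ r, R - ε ≤ r → Q r = 0 := by
    intro r hr; show P r / r = 0; rw [hPz2 r hr, zero_div]
  have hQsm : ContDiff ℝ ∞ Q := by
    rw [contDiff_iff_contDiffAt]
    intro r
    rcases lt_or_ge r (1 + ε) with h1 | h1
    · have : Q =ᶠ[nhds r] fun _ => 0 := by
        filter_upwards [Iio_mem_nhds h1] with t ht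
        exact hQz t (le_of_lt ht)
      exact contDiffAt_const.congr_of_eventuallyEq this
    · exact hPsm.contDiffAt.div contDiffAt_id (show (r : ℝ) ≠ 0 by linarith)
  have hQd : ∀ r, 0 < r → deriv Q r = deriv P r / r - P r / r ^ 2 := by
    intro r hr
    have h1 := (hPd r).div (hasDerivAt_id r) hr.ne'
    have h2 : Q = P / id := by funext t; rfl
    rw [h2, h1.deriv]
    simp only [id]
    field_simp
  have hQdz : ∀ r, r ≤ 1 → deriv Q r = 0 := by
    intro r hr
    have : Q =ᶠ[nhds r] fun _ => 0 := by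
      filter_upwards [Iio_mem_nhds (show r < 1 + ε by linarith)] with t ht
      exact hQz t (le_of_lt ht)
    rw [this.deriv_eq]; simp
  have hQdz2 : ∀ r, R ≤ r → deriv Q r = 0 := by
    intro r hr
    have : Q =ᶠ[nhds r] fun _ => 0 := by
      filter_upwards [Ioi_mem_nhds (show R - ε < r by linarith)] with t ht
      exact hQz2 t (le_of_lt ht)
    rw [this.deriv_eq]; simp
  -- reduction of integrals to `[1, R]`
  have hIoi : ∀ G : ℝ → ℝ, (∀ s, s ≤ 1 ∨ R ≤ s → G s = 0) →
      ∫ s in Ioi (0 : ℝ), G s = ∫ s in (1 : ℝ)..R, G s := by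
    intro G hG0
    rw [intervalIntegral.integral_of_le (by linarith)]
    apply setIntegral_eq_of_subset_of_forall_sdiff_eq_zero measurableSet_Ioi
    · intro s hs; exact lt_trans (by norm_num) hs.1
    · intro s hs
      apply hG0
      by_contra hcon
      push Not at hcon
      exact hs.2 ⟨hcon.1, hcon.2.le⟩
  refine ⟨fun z => Q ‖z - 0‖, ?_, ?_, ?_, ?_, ?_⟩
  · refine ⟨contDiff_radial (by linarith) hQsm hQz 0, ?_, ?_⟩
    · apply HasCompactSupport.intro (isCompact_closedBall (0 : E3) R)
      intro z hz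
      rw [Metric.mem_closedBall, dist_eq_norm, not_le] at hz
      exact hQz2 _ (by linarith)
    · have h1 : tsupport (fun z : E3 => Q ‖z - 0‖) ⊆ {z : E3 | 1 + ε ≤ ‖z‖ ∧ ‖z‖ ≤ R - ε} := by
        apply closure_minimal
        · intro z hz
          rw [Function.mem_support, sub_zero] at hz
          constructor
          · by_contra hcon; push Not at hcon
            exact hz (hQz _ hcon.le)
          · by_contra hcon; push Not at hcon
            exact hz (hQz2 _ hcon.le)
        · exact (isClosed_le continuous_const continuous_norm).inter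
            (isClosed_le continuous_norm continuous_const)
      intro z hz
      have h2 := h1 hz
      refine ⟨?_, ?_⟩
      · rw [Metric.mem_ball, dist_zero_right]; linarith [h2.2]
      · rw [Metric.mem_closedBall, dist_zero_right, not_le]; linarith [h2.1]
  · -- energy
    have h1 : energy (fun z : E3 => Q ‖z - 0‖) = ∫ z : E3, (deriv Q ‖z - 0‖) ^ 2 := by
      unfold energy
      congr 1
      funext z
      rw [norm_fderiv_radial (show 0 < 1 + ε by linarith) hQsm hQz 0 z, sq_abs]
    rw [h1, integral_radial 0 (fun r => (deriv Q r) ^ 2)]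
    apply mul_le_mul_of_nonneg_left _ V3_pos.le
    rw [hIoi (fun r => r ^ 2 * (deriv Q r) ^ 2)]
    · have hG : ∀ r ∈ Set.uIcc 1 R, HasDerivAt (fun r => P r ^ 2 / r)
          ((deriv P r) ^ 2 - r ^ 2 * (deriv Q r) ^ 2) r := by
        intro r hr
        rw [Set.uIcc_of_le (by linarith)] at hr
        have hr0 : 0 < r := by linarith [hr.1]
        have h2 := ((hPd r).pow 2).div (hasDerivAt_id r) hr0.ne'
        refine h2.congr_deriv ?_
        rw [hQd r hr0]
        simp only [id, Pi.pow_apply]
        field_simp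
        ring
      have hdP : Continuous (deriv P) := hPsm.continuous_deriv (by simp)
      have hdQ : Continuous (deriv Q) := hQsm.continuous_deriv (by simp)
      have h3 := intervalIntegral.integral_eq_sub_of_hasDerivAt hG
        (Continuous.intervalIntegrable (by fun_prop) _ _)
      rw [intervalIntegral.integral_sub (Continuous.intervalIntegrable (by fun_prop) _ _)
        (Continuous.intervalIntegrable (by fun_prop) _ _), hPz1 1 (by linarith),
        hPz2 R (by linarith)] at h3
      have h4 : ∫ r in (1 : ℝ)..R, r ^ 2 * (deriv Q r) ^ 2 = ∫ r in (1 : ℝ)..R, (deriv P r) ^ 2 := by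
        have : ((0 : ℝ) ^ 2 / R - 0 ^ 2 / 1) = 0 := by simp
        rw [this] at h3
        linarith
      rw [h4, ← integral_cos_sq_aux hk hkR]
      apply intervalIntegral.integral_mono_on (by linarith)
        (Continuous.intervalIntegrable (by fun_prop) _ _)
        (Continuous.intervalIntegrable (by fun_prop) _ _)
      intro r hr
      exact hPdle r hr.1 hr.2
    · intro s hs
      rcases hs with hs | hs
      · rw [hQdz s hs]; ring
      · rw [hQdz2 s hs]; ring
  · -- mass
    have h1 : mass (fun z : E3 => Q ‖z - 0‖) = ∫ z : E3, (Q ‖z - 0‖) ^ 2 := rfl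
    rw [h1, integral_radial 0 (fun r => (Q r) ^ 2)]
    apply mul_le_mul_of_nonneg_left _ V3_pos.le
    rw [hIoi (fun r => r ^ 2 * (Q r) ^ 2)]
    · have hPc := hPsm.continuous
      have hQc := hQsm.continuous
      have hSc := hSsm.continuous
      have h2 : ∫ r in (1 : ℝ)..R, ((1 / k ^ 2) * Real.sin (k * (r - 1)) ^ 2 - 4 * ε / k)
          ≤ ∫ r in (1 : ℝ)..R, r ^ 2 * (Q r) ^ 2 := by
        apply intervalIntegral.integral_mono_on (by linarith)
          (Continuous.intervalIntegrable (by fun_prop) _ _)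
          (Continuous.intervalIntegrable (by fun_prop) _ _)
        intro r hr
        have hr0 : 0 < r := by linarith [hr.1]
        have e1 : r ^ 2 * (Q r) ^ 2 = P r ^ 2 := by
          simp only [hQ]; field_simp
        have e2 : (1 / k ^ 2) * Real.sin (k * (r - 1)) ^ 2 = S r ^ 2 := by
          simp only [hS]; field_simp
        rw [e1, e2, hPin r hr.1 hr.2]
        have a1 := hFge (S r)
        have a2 := hF0 (S r)
        have a3 := hS0 r hr.1 hr.2
        have a4 := hSk r
        have a5 : 4 * ε * S r ≤ 4 * ε / k := by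
          have := mul_le_mul_of_nonneg_left a4 (show 0 ≤ 4 * ε by linarith)
          calc _ ≤ _ := this
            _ = _ := by ring
        rcases le_total (S r) (2 * ε) with h | h
        · nlinarith [sq_nonneg (F (S r))]
        · have a6 : (S r - 2 * ε) ^ 2 ≤ F (S r) ^ 2 := pow_le_pow_left₀ (by linarith) a1 2
          nlinarith
      rw [intervalIntegral.integral_sub (Continuous.intervalIntegrable (by fun_prop) _ _)
        intervalIntegrable_const, intervalIntegral.integral_const_mul,
        integral_sin_sq_aux hk hkR, intervalIntegral.integral_const] at h2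
      refine le_trans (le_of_eq ?_) h2
      simp only [smul_eq_mul]
      rw [hkdef]
      have hpi := Real.pi_pos
      field_simp
    · intro s hs
      rcases hs with hs | hs
      · rw [hQz s (by linarith)]; ring
      · rw [hQz2 s (by linarith)]; ring
  · intro z h1 h2
    show |P ‖z - 0‖ / ‖z - 0‖| ≤ _
    rw [sub_zero]
    rw [abs_of_nonneg (div_nonneg (hP0 _) (norm_nonneg _))]
    exact div_le_div_of_nonneg_right (hPle _ h1 h2) (norm_nonneg _)
  · intro z h1 h2
    rw [norm_fderiv_radial (show 0 < 1 + ε by linarith) hQsm hQz 0 z, sub_zero,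
      hQd _ (by linarith)]
    have hz0 : 0 < ‖z‖ := by linarith
    have a1 : |deriv P ‖z‖| ≤ 1 := by
      have := hPdle ‖z‖ h1 (by linarith)
      have h3 := Real.cos_sq_le_one (k * (‖z‖ - 1))
      rw [← sq_le_one_iff_abs_le_one]
      exact this.trans h3
    have a2 : 0 ≤ P ‖z‖ := hP0 _
    have a3 : P ‖z‖ ≤ 1 := (hPle _ h1 (by linarith)).trans (by linarith)
    have b1 : |deriv P ‖z‖ / ‖z‖| ≤ 1 := by
      rw [abs_div, abs_of_pos hz0, div_le_one hz0]; linarith
    have b2 : |P ‖z‖ / ‖z‖ ^ 2| ≤ 1 := by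
      rw [abs_of_nonneg (div_nonneg a2 (sq_nonneg _)), div_le_one (by positivity)]
      nlinarith
    calc _ ≤ |deriv P ‖z‖ / ‖z‖| + |P ‖z‖ / ‖z‖ ^ 2| := abs_sub _ _
      _ ≤ 2 := by linarith

end Pool.Agent.Helper73.Obst
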