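import Mathlib
import Pool.Agent.Helper73.Obst.Barta

set_option autoImplicit false

namespace Pool.Agent.Helper73.Obst

open MeasureTheory
open scoped ContDiff

/-- `w` solves `-Δ w = k² w` on `V` (with continuous derivatives as needed for Barta). -/
def Helm (k : ℝ) (V : Set E3) (w : E3 → ℝ) : Prop :=
  ∃ g l : Fin 3 → E3 → ℝ, HasLap V w g l ∧ ∀ z ∈ V, ∑ i, l i z = - k ^ 2 * w z

lemma Helm.add {k : ℝ} {V : Set E3} {w₁ w₂ : E3 → ℝ} (h₁ : Helm k V w₁) (h₂ : Helm k V w₂) :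
    Helm k V (fun z => w₁ z + w₂ z) := by
  obtain ⟨g₁, l₁, a₁, b₁⟩ := h₁
  obtain ⟨g₂, l₂, a₂, b₂⟩ := h₂
  refine ⟨fun i z => g₁ i z + g₂ i z, fun i z => l₁ i z + l₂ i z, ?_, ?_⟩
  · refine ⟨a₁.cw.add a₂.cw, fun i => (a₁.cg i).add (a₂.cg i), fun i => (a₁.cl i).add (a₂.cl i), ?_, ?_⟩
    · intro z hz i
      exact HasDerivAt.add (a₁.dw z hz i) (a₂.dw z hz i)
    · intro z hz i
      exact HasDerivAt.add (a₁.dg z hz i) (a₂.dg z hz i)
  · intro z hz
    rw [Finset.sum_add_distrib, b₁ z hz, b₂ z hz]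
    ring

lemma Helm.const_mul {k : ℝ} {V : Set E3} {w : E3 → ℝ} (c : ℝ) (h : Helm k V w) :
    Helm k V (fun z => c * w z) := by
  obtain ⟨g, l, a, b⟩ := h
  refine ⟨fun i z => c * g i z, fun i z => c * l i z, ?_, ?_⟩
  · refine ⟨continuousOn_const.mul a.cw, fun i => continuousOn_const.mul (a.cg i),
      fun i => continuousOn_const.mul (a.cl i), ?_, ?_⟩
    · intro z hz i
      exact HasDerivAt.const_mul c (a.dw z hz i)
    · intro z hz i
      exact HasDerivAt.const_mul c (a.dg z hz i)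
  · intro z hz
    rw [← Finset.mul_sum, b z hz]
    ring

lemma norm_line (p z : E3) (i : Fin 3) (t : ℝ) :
    ‖z + t • ee i - p‖ = Real.sqrt (‖z - p‖ ^ 2 + 2 * t * (z - p) i + t ^ 2) := by
  rw [← Real.sqrt_sq (norm_nonneg (z + t • ee i - p))]
  congr 1
  have h1 : z + t • ee i - p = (z - p) + t • ee i := by abel
  rw [h1, norm_add_sq_real, inner_smul_right, norm_smul]
  simp [EuclideanSpace.inner_single_right]
  ring

lemma hasLineDerivAt_norm (p z : E3) (hz : z ≠ p) (i : Fin 3) :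
    HasLineDerivAt ℝ (fun y : E3 => ‖y - p‖) ((z - p) i / ‖z - p‖) z (ee i) := by
  unfold HasLineDerivAt
  have h0 : 0 < ‖z - p‖ := norm_pos_iff.2 (sub_ne_zero.2 hz)
  have h1 : HasDerivAt (fun t : ℝ => ‖z - p‖ ^ 2 + 2 * t * (z - p) i + t ^ 2)
      (2 * (z - p) i) 0 := by
    have a1 : HasDerivAt (fun t : ℝ => ‖z - p‖ ^ 2 + 2 * t * (z - p) i) (2 * (z - p) i) 0 := by
      have := ((hasDerivAt_id (0 : ℝ)).const_mul (2 : ℝ)).mul_const ((z - p) i)
      simpa using this.const_add (‖z - p‖ ^ 2)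
    have a2 : HasDerivAt (fun t : ℝ => t ^ 2) 0 0 := by
      simpa using hasDerivAt_pow 2 (0 : ℝ)
    exact (a1.add a2).congr_deriv (by ring)
  have h2 := h1.sqrt (by simp; exact sub_ne_zero.2 hz)
  have h3 : (fun t : ℝ => ‖z + t • ee i - p‖)
      = fun t : ℝ => Real.sqrt (‖z - p‖ ^ 2 + 2 * t * (z - p) i + t ^ 2) := by
    funext t; exact norm_line p z i t
  rw [h3]
  refine h2.congr_deriv ?_
  simp
  field_simp

lemma hasLineDerivAt_radial (p z : E3) (hz : z ≠ p) (i : Fin 3) (f : ℝ → ℝ) (f' : ℝ)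
    (hf : HasDerivAt f f' ‖z - p‖) :
    HasLineDerivAt ℝ (fun y : E3 => f ‖y - p‖) (f' * ((z - p) i / ‖z - p‖)) z (ee i) := by
  have h := hasLineDerivAt_norm p z hz i
  unfold HasLineDerivAt at h ⊢
  have h0 : ‖z + (0 : ℝ) • ee i - p‖ = ‖z - p‖ := by simp
  rw [← h0] at hf
  exact hf.comp (0 : ℝ) h

lemma hasLineDerivAt_coord (p z : E3) (i : Fin 3) :
    HasLineDerivAt ℝ (fun y : E3 => (y - p) i) 1 z (ee i) := by
  unfold HasLineDerivAt
  have : (fun t : ℝ => (z + t • ee i - p) i) = fun t : ℝ => (z - p) i + t := by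
    funext t
    simp
    ring
  rw [this]
  simpa using (hasDerivAt_id (0 : ℝ)).const_add ((z - p) i)

/-- Radial solutions `P(|z-p|)/|z-p|`, `P'' = -k² P`. -/
lemma helm_radial (k : ℝ) (p : E3) (P P' : ℝ → ℝ) (hP : ∀ r, HasDerivAt P (P' r) r)
    (hP' : ∀ r, HasDerivAt P' (- k ^ 2 * P r) r) (V : Set E3) (hV : ∀ z ∈ V, z ≠ p) :
    Helm k V (fun z => P ‖z - p‖ / ‖z - p‖) := by
  have cP : Continuous P := continuous_iff_continuousAt.2 fun r => (hP r).continuousAt
  have cP' : Continuous P' := continuous_iff_continuousAt.2 fun r => (hP' r).continuousAt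
  have cn : Continuous fun z : E3 => ‖z - p‖ := by fun_prop
  have hne : ∀ z ∈ V, ‖z - p‖ ≠ 0 := fun z hz => norm_ne_zero_iff.2 (sub_ne_zero.2 (hV z hz))
  have cc : ∀ i : Fin 3, Continuous fun z : E3 => (z - p) i := fun i => by fun_prop
  refine ⟨fun i z => (‖z - p‖ * P' ‖z - p‖ - P ‖z - p‖) / ‖z - p‖ ^ 3 * (z - p) i,
    fun i z => (‖z - p‖ * P' ‖z - p‖ - P ‖z - p‖) / ‖z - p‖ ^ 3
      + (- k ^ 2 * P ‖z - p‖ / ‖z - p‖ ^ 2
        - 3 * (‖z - p‖ * P' ‖z - p‖ - P ‖z - p‖) / ‖z - p‖ ^ 4) * ((z - p) i ^ 2 / ‖z - p‖),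
    ⟨?_, ?_, ?_, ?_, ?_⟩, ?_⟩
  · exact ((cP.comp cn).continuousOn).div cn.continuousOn hne
  · intro i
    apply ContinuousOn.mul _ (cc i).continuousOn
    apply ContinuousOn.div
    · exact ((cn.mul (cP'.comp cn)).sub (cP.comp cn)).continuousOn
    · exact (cn.pow 3).continuousOn
    · intro z hz; exact pow_ne_zero 3 (hne z hz)
  · intro i
    apply ContinuousOn.add
    · apply ContinuousOn.div
      · exact ((cn.mul (cP'.comp cn)).sub (cP.comp cn)).continuousOn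
      · exact (cn.pow 3).continuousOn
      · intro z hz; exact pow_ne_zero 3 (hne z hz)
    · apply ContinuousOn.mul
      · apply ContinuousOn.sub
        · apply ContinuousOn.div
          · exact (continuous_const.mul (cP.comp cn)).continuousOn
          · exact (cn.pow 2).continuousOn
          · intro z hz; exact pow_ne_zero 2 (hne z hz)
        · apply ContinuousOn.div
          · exact (continuous_const.mul ((cn.mul (cP'.comp cn)).sub (cP.comp cn))).continuousOn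
          · exact (cn.pow 4).continuousOn
          · intro z hz; exact pow_ne_zero 4 (hne z hz)
      · exact ((cc i).pow 2).continuousOn.div cn.continuousOn hne
  · intro z hz i
    have h0 := hne z hz
    have hd : HasDerivAt (fun r => P r / r) ((P' ‖z - p‖ * ‖z - p‖ - P ‖z - p‖ * 1) / ‖z - p‖ ^ 2)
        ‖z - p‖ := (hP _).div (hasDerivAt_id _) h0
    have h1 := hasLineDerivAt_radial p z (hV z hz) i (fun r => P r / r) _ hd
    convert h1 using 1
    field_simp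
  · intro z hz i
    have h0 := hne z hz
    have hd : HasDerivAt (fun r => (r * P' r - P r) / r ^ 3)
        ((((1 * P' ‖z - p‖ + ‖z - p‖ * (- k ^ 2 * P ‖z - p‖)) - P' ‖z - p‖) * ‖z - p‖ ^ 3
          - (‖z - p‖ * P' ‖z - p‖ - P ‖z - p‖) * (3 * ‖z - p‖ ^ 2)) / (‖z - p‖ ^ 3) ^ 2)
        ‖z - p‖ := by
      have a1 := (((hasDerivAt_id ‖z - p‖).mul (hP' ‖z - p‖)).sub (hP ‖z - p‖)).div
        (hasDerivAt_pow 3 ‖z - p‖) (pow_ne_zero 3 h0)
      refine (a1.congr_deriv ?_)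
      simp
    have h1 := hasLineDerivAt_radial p z (hV z hz) i (fun r => (r * P' r - P r) / r ^ 3) _ hd
    have h2 := hasLineDerivAt_coord p z i
    unfold HasLineDerivAt at h1 h2 ⊢
    refine (h1.mul h2).congr_deriv ?_
    simp only [zero_smul, add_zero]
    field_simp
    ring
  · intro z hz
    have h0 := hne z hz
    have h1 : ‖z - p‖ ^ 2 = (z - p) 0 ^ 2 + (z - p) 1 ^ 2 + (z - p) 2 ^ 2 := by
      rw [EuclideanSpace.norm_sq_eq, Fin.sum_univ_three]
      simp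
    simp only [Fin.sum_univ_three]
    have h2 : ((z - p) 0 ^ 2 / ‖z - p‖) + ((z - p) 1 ^ 2 / ‖z - p‖) + ((z - p) 2 ^ 2 / ‖z - p‖)
        = ‖z - p‖ := by
      field_simp
      linarith
    calc _ = 3 * ((‖z - p‖ * P' ‖z - p‖ - P ‖z - p‖) / ‖z - p‖ ^ 3)
        + (- k ^ 2 * P ‖z - p‖ / ‖z - p‖ ^ 2
        - 3 * (‖z - p‖ * P' ‖z - p‖ - P ‖z - p‖) / ‖z - p‖ ^ 4) *
        (((z - p) 0 ^ 2 / ‖z - p‖) + ((z - p) 1 ^ 2 / ‖z - p‖) + ((z - p) 2 ^ 2 / ‖z - p‖)) := by ring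
      _ = _ := by
        rw [h2]
        field_simp
        ring

lemma helm_cos (k : ℝ) (p : E3) (V : Set E3) (hV : ∀ z ∈ V, z ≠ p) :
    Helm k V (fun z => Real.cos (k * ‖z - p‖) / ‖z - p‖) := by
  apply helm_radial k p (fun r => Real.cos (k * r)) (fun r => - (k * Real.sin (k * r))) _ _ V hV
  · intro r
    have h := (Real.hasDerivAt_cos (k * r)).comp r ((hasDerivAt_id r).const_mul k)
    refine h.congr_deriv ?_
    ring
  · intro r
    have h := (((Real.hasDerivAt_sin (k * r)).comp r ((hasDerivAt_id r).const_mul k)).const_mul k).neg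
    refine h.congr_deriv ?_
    ring

lemma helm_sin (k : ℝ) (p : E3) (V : Set E3) (hV : ∀ z ∈ V, z ≠ p) :
    Helm k V (fun z => Real.sin (k * ‖z - p‖) / ‖z - p‖) := by
  apply helm_radial k p (fun r => Real.sin (k * r)) (fun r => (k * Real.cos (k * r))) _ _ V hV
  · intro r
    have h := (Real.hasDerivAt_sin (k * r)).comp r ((hasDerivAt_id r).const_mul k)
    refine h.congr_deriv ?_
    ring
  · intro r
    have h := (((Real.hasDerivAt_cos (k * r)).comp r ((hasDerivAt_id r).const_mul k)).const_mul k)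
    refine h.congr_deriv ?_
    ring

lemma Helm.energy_le {k : ℝ} {V : Set E3} (hV : IsOpen V) {w : E3 → ℝ} (h : Helm k V w)
    (hpos : ∀ z ∈ V, 0 < w z) {φ : E3 → ℝ} (hφ : IsTest V φ) :
    k ^ 2 * mass φ ≤ energy φ := by
  obtain ⟨g, l, a, b⟩ := h
  exact barta hV a hpos (fun z hz => by rw [b z hz]) hφ

end Pool.Agent.Helper73.Obst
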