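import Mathlib
import Pool.Agent.Helper73.Obst.Radial

set_option autoImplicit false

namespace Pool.Agent.Helper73.Obst

open MeasureTheory
open scoped ContDiff

/-- The constant `C' = 1 + 13 δ / 200`. -/
noncomputable def Cp (δ : ℝ) : ℝ := 1 + 13 / 200 * δ

/-- The wave number `k = π / (R - C')`. -/
noncomputable def kk (δ R : ℝ) : ℝ := Real.pi / (R - Cp δ)

/-- Kelvin identity. -/
lemma kelvin (x y z : E3) (r : ℝ) (hr : 0 < r) (hxy : ‖y - x‖ = r) :
    (r * ‖z - (x + (1 / r ^ 2) • (y - x))‖) ^ 2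
      = ‖z - y‖ ^ 2 + (r ^ 2 - 1) * (‖z - x‖ ^ 2 - 1) := by
  obtain ⟨u, hu⟩ : ∃ u, u = z - x := ⟨_, rfl⟩
  obtain ⟨v, hv⟩ : ∃ v, v = y - x := ⟨_, rfl⟩
  have h1 : z - (x + (1 / r ^ 2) • v) = u - (1 / r ^ 2) • v := by rw [hu]; abel
  have h2 : z - y = u - v := by rw [hu, hv]; abel
  rw [← hv] at hxy
  rw [← hv, h1, h2, ← hu, mul_pow, norm_sub_sq_real, norm_sub_sq_real, inner_smul_right, norm_smul,
    hxy, Real.norm_of_nonneg (by positivity)]
  field_simp
  ring

/-- Positivity of the harmonic function with a Kelvin image charge. -/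
lemma U_nonneg {t D D' r δ β : ℝ} (hδ : δ = 1 / 10 ^ 6) (hβ : β = 13 / 50 * δ)
    (hr1 : 11 / 8 ≤ r) (hr2 : r ≤ 11 / 5) (ht : 1 ≤ t) (hD : δ ≤ D) (hD' : 0 < D')
    (hkel : D' ^ 2 = D ^ 2 + (r ^ 2 - 1) * (t ^ 2 - 1)) (htri1 : r - t ≤ D) (htri2 : t ≤ r + D) :
    0 ≤ 1 - 1 / t - β / D + β / D' := by
  have hδ0 : 0 < δ := by rw [hδ]; norm_num
  have hβ0 : 0 < β := by rw [hβ]; positivity
  have hD0 : 0 < D := lt_of_lt_of_le hδ0 hD
  have ht0 : 0 < t := by linarith
  have hp : 0 ≤ β / D' := by positivity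
  rcases le_or_gt D (2 * δ) with hA | hA
  · -- very near the small ball
    have h1 : β / D ≤ 13 / 50 := by
      rw [div_le_iff₀ hD0, hβ]
      nlinarith
    have h2 : 1 / t ≤ 37 / 50 := by
      rw [div_le_div_iff₀ ht0 (by norm_num)]
      have : t ≥ r - D := by linarith
      rw [hδ] at hA
      linarith
    linarith
  rcases le_or_gt D (9 / 40) with hB | hB
  · have h1 : β / D ≤ 13 / 100 := by
      rw [div_le_iff₀ hD0, hβ]
      nlinarith
    have h2 : 1 / t ≤ 87 / 100 := by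
      rw [div_le_div_iff₀ ht0 (by norm_num)]
      linarith
    linarith
  · -- far from the small ball
    have hDD : D ≤ D' := by
      have h3 : D ^ 2 ≤ D' ^ 2 := by
        rw [hkel]
        have : 0 ≤ (r ^ 2 - 1) * (t ^ 2 - 1) := mul_nonneg (by nlinarith) (by nlinarith)
        linarith
      exact (sq_le_sq₀ hD0.le hD'.le).1 h3
    have h1 : 1 / D - 1 / D' ≤ (r ^ 2 - 1) * (t ^ 2 - 1) / (2 * D ^ 3) := by
      have e1 : 1 / D - 1 / D' = (D' - D) / (D * D') := by field_simp
      rw [e1, div_le_div_iff₀ (by positivity) (by positivity)]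
      have e2 : (r ^ 2 - 1) * (t ^ 2 - 1) = (D' - D) * (D' + D) := by nlinarith
      rw [e2]
      have h4 : 0 ≤ D' - D := by linarith
      have h5 : (D' - D) * (2 * D ^ 3) ≤ (D' - D) * ((D' + D) * (D * D')) := by
        apply mul_le_mul_of_nonneg_left _ h4
        have : D * D ≤ D * D' := mul_le_mul_of_nonneg_left hDD hD0.le
        nlinarith [mul_nonneg hD0.le hD0.le, mul_nonneg hD0.le hD'.le]
      linarith
    have h2 : β * ((r ^ 2 - 1) * (t ^ 2 - 1) / (2 * D ^ 3)) ≤ 1 - 1 / t := by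
      have e1 : 1 - 1 / t = (t - 1) / t := by field_simp
      rw [e1, mul_div_assoc', div_le_div_iff₀ (by positivity) ht0]
      have hr3 : r ^ 2 - 1 ≤ 4 := by nlinarith
      have h6 : β * (r ^ 2 - 1) ≤ 2 / 10 ^ 6 := by
        rw [hβ, hδ]; nlinarith
      have h7 : β * (r ^ 2 - 1) * (t * (t + 1)) ≤ 2 / 10 ^ 6 * (t * (t + 1)) :=
        mul_le_mul_of_nonneg_right h6 (by positivity)
      have h8 : 2 / 10 ^ 6 * (t * (t + 1)) ≤ 2 * D ^ 3 := by
        have h9 : t ≤ 11 / 5 + D := by linarith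
        have h10 : t * (t + 1) ≤ (11 / 5 + D) * (11 / 5 + D + 1) :=
          mul_le_mul h9 (by linarith) (by linarith) (by linarith)
        have h11 : (11 / 5 + D) * (11 / 5 + D + 1) ≤ 1000 * D ^ 2 := by
          have : 11 / 5 ≤ 10 * D := by linarith
          nlinarith [mul_nonneg hD0.le hD0.le]
        have h12 : D ^ 2 * (9 / 40) ≤ D ^ 3 := by
          have e0 : D ^ 3 = D ^ 2 * D := by ring
          rw [e0]; exact mul_le_mul_of_nonneg_left hB.le (sq_nonneg D)
        have h14 : 0 ≤ D ^ 2 := sq_nonneg D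
        linarith
      have h13 : 0 ≤ t - 1 := by linarith
      have : β * ((r ^ 2 - 1) * (t ^ 2 - 1)) * t = (t - 1) * (β * (r ^ 2 - 1) * (t * (t + 1))) := by ring
      rw [this]
      exact mul_le_mul_of_nonneg_left (by linarith) h13
    have h3 : β * (1 / D - 1 / D') ≤ β * ((r ^ 2 - 1) * (t ^ 2 - 1) / (2 * D ^ 3)) :=
      mul_le_mul_of_nonneg_left h1 hβ0.le
    have e3 : β * (1 / D - 1 / D') = β / D - β / D' := by ring
    rw [e3] at h3
    linarith

/-- The far field: positivity up to the outer boundary. -/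
lemma far_pos {δ R C s : ℝ} (hδ : δ = 1 / 10 ^ 6) (hR : 10 ^ 12 ≤ R)
    (hC1 : Cp δ + 3 / 1000 * δ ≤ C) (hC2 : C ≤ 2) (hs1 : 40 ≤ s) (hs2 : s < R) :
    6 / s < Real.sin (kk δ R * s) / kk δ R - C * Real.cos (kk δ R * s) := by
  have hCp : Cp δ = 1 + 13 / 200 * δ := rfl
  have hδ0 : 0 < δ := by rw [hδ]; norm_num
  have hCp1 : 1 ≤ Cp δ := by rw [hCp]; nlinarith
  have hCp2 : Cp δ ≤ 2 := by linarith [mul_pos (by norm_num : (0 : ℝ) < 3 / 1000) hδ0]
  have hRC : 0 < R - Cp δ := by linarith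
  set k := kk δ R with hk
  have hk0 : 0 < k := div_pos Real.pi_pos hRC
  have hkR : k * (R - Cp δ) = Real.pi := by
    rw [hk, kk]; field_simp
  have hpi3 : 3 < Real.pi := Real.pi_gt_three
  have hpi4 : Real.pi < 4 := by linarith [Real.pi_lt_d2]
  have hs0 : 0 < s := by linarith
  have hksmall : k ≤ 1 / 10 ^ 11 := by
    rw [hk, kk, div_le_div_iff₀ hRC (by norm_num)]
    nlinarith
  rcases le_or_gt (k * s) (Real.pi / 2) with h1 | h1
  · have h2 := Real.mul_le_sin (mul_nonneg hk0.le hs0.le) h1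
    have h3 : s / 2 ≤ Real.sin (k * s) / k := by
      rw [le_div_iff₀ hk0]
      have h4 : 1 / 2 ≤ 2 / Real.pi := by
        rw [div_le_div_iff₀ (by norm_num) Real.pi_pos]; linarith
      have h5 : 1 / 2 * (k * s) ≤ 2 / Real.pi * (k * s) :=
        mul_le_mul_of_nonneg_right h4 (by positivity)
      nlinarith
    have h6 : C * Real.cos (k * s) ≤ 2 := by
      have h7 := Real.cos_le_one (k * s)
      have h8 : 0 ≤ C := by linarith
      nlinarith
    have h9 : 6 / s ≤ 1 := by rw [div_le_one hs0]; linarith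
    linarith
  · -- second half
    have hsbig : R / 4 ≤ s := by
      have : Real.pi / 2 < k * s := h1
      have h2 : k * (R - Cp δ) / 2 < k * s := by rw [hkR]; exact h1
      have h3 : (R - Cp δ) / 2 < s := by
        by_contra hcon
        push Not at hcon
        have := mul_le_mul_of_nonneg_left hcon hk0.le
        linarith
      linarith
    have h6s : 6 / s ≤ 24 / 10 ^ 12 := by
      rw [div_le_div_iff₀ hs0 (by norm_num)]
      nlinarith
    set θ := k * (R - Cp δ - s) with hθ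
    have hks : k * s = Real.pi - θ := by rw [hθ, mul_sub k (R - Cp δ) s, hkR]; ring
    rw [hks, Real.sin_pi_sub, Real.cos_pi_sub]
    have hθ2 : θ < Real.pi / 2 := by linarith
    have hCpos : 1 ≤ C := by nlinarith
    rcases le_or_gt 0 θ with h2 | h2
    · have h3 := Real.mul_le_sin h2 hθ2.le
      have h4 : 1 - 2 / Real.pi * θ ≤ Real.cos θ := by
        have h5 := Real.mul_le_sin (x := Real.pi / 2 - θ) (by linarith) (by linarith)
        rw [Real.sin_pi_div_two_sub] at h5
        have : 2 / Real.pi * (Real.pi / 2 - θ) = 1 - 2 / Real.pi * θ := by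
          field_simp
        linarith
      have h6 : C * (2 / Real.pi * θ) ≤ Real.sin θ / k := by
        rw [le_div_iff₀ hk0]
        have h7 : 0 ≤ 2 / Real.pi * θ := by positivity
        have h8 : C * k ≤ 2 * (1 / 10 ^ 11) := mul_le_mul hC2 hksmall hk0.le (by norm_num)
        have h8' : C * k ≤ 1 := by linarith [show (2 : ℝ) * (1 / 10 ^ 11) ≤ 1 by norm_num]
        calc C * (2 / Real.pi * θ) * k = (C * k) * (2 / Real.pi * θ) := by ring
          _ ≤ 1 * (2 / Real.pi * θ) := mul_le_mul_of_nonneg_right h8' h7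
          _ ≤ _ := by linarith
      have h9 : C * (1 - 2 / Real.pi * θ) ≤ C * Real.cos θ :=
        mul_le_mul_of_nonneg_left h4 (by linarith)
      have h10 : (24 : ℝ) / 10 ^ 12 < 1 := by norm_num
      have h11 : C * (1 - 2 / Real.pi * θ) = C - C * (2 / Real.pi * θ) := by ring
      linarith
    · have h3 : θ ≤ Real.sin θ := by
        have := Real.sin_le (x := -θ) (by linarith)
        rw [Real.sin_neg] at this
        linarith
      have h4 : -Cp δ ≤ Real.sin θ / k := by
        rw [le_div_iff₀ hk0]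
        have : -Cp δ * k ≤ θ := by
          have := mul_pos hk0 (by linarith : 0 < R - s)
          rw [hθ]; linarith
        linarith
      have h5 := Real.one_sub_sq_div_two_le_cos (x := θ)
      have h6 : θ ^ 2 ≤ 4 / 10 ^ 22 := by
        have h7 : -(2 / 10 ^ 11) ≤ θ := by
          have h8 : -Cp δ * k ≤ θ := by
            have := mul_pos hk0 (by linarith : 0 < R - s)
            rw [hθ]; linarith
          have h8' : Cp δ * k ≤ 2 * (1 / 10 ^ 11) := mul_le_mul hCp2 hksmall hk0.le (by norm_num)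
          linarith
        have h8 : θ ^ 2 = (-θ) ^ 2 := by ring
        rw [h8]
        calc (-θ) ^ 2 ≤ (2 / 10 ^ 11) ^ 2 := pow_le_pow_left₀ (by linarith) (by linarith) 2
          _ ≤ _ := by norm_num
      have h8 : C * (1 - θ ^ 2 / 2) ≤ C * Real.cos θ :=
        mul_le_mul_of_nonneg_left h5 (by linarith)
      have h9 : C * (θ ^ 2 / 2) ≤ 2 * (4 / 10 ^ 22 / 2) :=
        mul_le_mul hC2 (by linarith) (by positivity) (by norm_num)
      have h10 : (24 : ℝ) / 10 ^ 12 < 3 / 1000 * (1 / 10 ^ 6) - 2 * (4 / 10 ^ 22 / 2) := by norm_num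
      have h11 : 3 / 1000 * δ = 3 / 1000 * (1 / 10 ^ 6) := by rw [hδ]
      have h12 : C * (1 - θ ^ 2 / 2) = C - C * (θ ^ 2 / 2) := by ring
      linarith

/-- Comparison of `cos(k s)/s` at nearby radii. -/
lemma cos_compare {k s s' d : ℝ} (hk : 0 < k) (hks : k * s ≤ 4) (hs : 40 ≤ s) (hd0 : 0 ≤ d)
    (hd : d ≤ 2) (hss : |s' - s| ≤ d) :
    |Real.cos (k * s') / s' - Real.cos (k * s) / s| ≤ 6 * d / s ^ 2 := by
  have hs0 : 0 < s := by linarith
  have h1 := (abs_le.1 hss).1
  have hs' : 38 / 40 * s ≤ s' := by linarith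
  have hs'0 : 0 < s' := by linarith
  have e1 : Real.cos (k * s') / s' - Real.cos (k * s) / s
      = (Real.cos (k * s') - Real.cos (k * s)) / s' + Real.cos (k * s) * ((s - s') / (s' * s)) := by
    field_simp
    ring
  rw [e1]
  have h2 : |Real.cos (k * s') - Real.cos (k * s)| ≤ k * d := by
    have h3 := Real.abs_cos_sub_cos_le (k * s') (k * s)
    have h4 : |k * s' - k * s| = k * |s' - s| := by
      rw [← mul_sub, abs_mul, abs_of_pos hk]
    rw [h4] at h3
    exact h3.trans (mul_le_mul_of_nonneg_left hss hk.le)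
  have h5 : |(Real.cos (k * s') - Real.cos (k * s)) / s'| ≤ (40 / 38) * (4 * d) / s ^ 2 := by
    rw [abs_div, abs_of_pos hs'0, div_le_div_iff₀ hs'0 (by positivity)]
    have h6 : |Real.cos (k * s') - Real.cos (k * s)| * s ^ 2 ≤ k * d * s ^ 2 :=
      mul_le_mul_of_nonneg_right h2 (by positivity)
    have h7 : k * d * s ^ 2 ≤ 4 * d * s := by nlinarith [mul_nonneg hd0 hs0.le]
    have h8 : 4 * d * s ≤ 40 / 38 * (4 * d) * s' := by nlinarith
    linarith
  have h6 : |Real.cos (k * s) * ((s - s') / (s' * s))| ≤ (40 / 38) * d / s ^ 2 := by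
    rw [abs_mul]
    have h7 : |Real.cos (k * s)| ≤ 1 := Real.abs_cos_le_one _
    have h8 : |(s - s') / (s' * s)| ≤ (40 / 38) * d / s ^ 2 := by
      rw [abs_div, abs_sub_comm, abs_of_pos (mul_pos hs'0 hs0), div_le_div_iff₀ (by positivity) (by positivity)]
      have h9 : |s' - s| * s ^ 2 ≤ d * s ^ 2 := mul_le_mul_of_nonneg_right hss (by positivity)
      have h10 : d * s ^ 2 ≤ 40 / 38 * d * (s' * s) := by nlinarith [mul_nonneg hd0 hs0.le]
      linarith
    calc _ ≤ 1 * ((40 / 38) * d / s ^ 2) := mul_le_mul h7 h8 (abs_nonneg _) zero_le_one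
      _ = _ := one_mul _
  calc _ ≤ _ := abs_add_le _ _
    _ ≤ (40 / 38) * (4 * d) / s ^ 2 + (40 / 38) * d / s ^ 2 := add_le_add h5 h6
    _ ≤ 6 * d / s ^ 2 := by
      rw [← add_div]
      apply div_le_div_of_nonneg_right _ (by positivity)
      linarith

end Pool.Agent.Helper73.Obst
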