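import Mathlib
import Pool.Agent.Helper73.Obst.SuperAux

set_option autoImplicit false

namespace Pool.Agent.Helper73.Obst

open MeasureTheory
open scoped ContDiff

lemma local_real {δ k s t D r Z : ℝ} (hδ : δ = 1 / 10 ^ 6) (hk0 : 0 < k)
    (hksmall : k ≤ 1 / 10 ^ 11) (hs0 : 0 < s) (hs : s ≤ 40) (ht : 1 < t) (ht41 : t ≤ 41)
    (hD : δ < D) (hr : 11 / 8 ≤ r) (hZ0 : 0 < Z) (hZ : Z ≤ 42)
    (hU : 0 ≤ 1 - 1 / t - 13 / 50 * δ / D + 13 / 50 * δ / (r * Z)) :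
    0 < ((1 / k * (Real.sin (k * s) / s) + -(1 - δ / 400) * (Real.cos (k * t) / t))
      + -(13 / 50 * δ) * (Real.cos (k * D) / D)) + 13 / 50 * δ / r * (Real.cos (k * Z) / Z) := by
  have hδ0 : 0 < δ := by rw [hδ]; norm_num
  have ht0 : 0 < t := by linarith
  have hD0 : 0 < D := by linarith
  have hr0 : 0 < r := by linarith
  have hksq : k ^ 2 ≤ 1 / 10 ^ 22 := by
    calc k ^ 2 ≤ (1 / 10 ^ 11) ^ 2 := pow_le_pow_left₀ hk0.le hksmall 2
      _ = _ := by norm_num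
  have hsin : 1 - 400 * k ^ 2 ≤ 1 / k * (Real.sin (k * s) / s) := by
    have h1 := Real.sin_gt_sub_cube (mul_pos hk0 hs0)
    have e1 : 1 / k * (Real.sin (k * s) / s) = Real.sin (k * s) / (k * s) := by
      field_simp
    rw [e1, le_div_iff₀ (by positivity)]
    have h2 : s ^ 2 ≤ 1600 := by
      calc s ^ 2 ≤ 40 ^ 2 := pow_le_pow_left₀ hs0.le hs 2
        _ = _ := by norm_num
    have h3 : (k * s) ^ 3 / 6 ≤ 400 * k ^ 2 * (k * s) := by
      have e2 : (k * s) ^ 3 / 6 = (k ^ 2 * (k * s)) * (s ^ 2 / 6) := by ring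
      have e3 : 400 * k ^ 2 * (k * s) = (k ^ 2 * (k * s)) * 400 := by ring
      rw [e2, e3]
      exact mul_le_mul_of_nonneg_left (by linarith) (by positivity)
    linarith
  have hcos1 : Real.cos (k * t) / t ≤ 1 / t :=
    div_le_div_of_nonneg_right (Real.cos_le_one _) ht0.le
  have hcos2 : Real.cos (k * D) / D ≤ 1 / D :=
    div_le_div_of_nonneg_right (Real.cos_le_one _) hD0.le
  have hcos3 : (1 - k ^ 2 * Z ^ 2 / 2) / Z ≤ Real.cos (k * Z) / Z := by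
    apply div_le_div_of_nonneg_right _ hZ0.le
    have := Real.one_sub_sq_div_two_le_cos (x := k * Z)
    rw [mul_pow] at this
    exact this
  have hα0 : 0 < 1 - δ / 400 := by rw [hδ]; norm_num
  have t1 : -(1 - δ / 400) * (1 / t) ≤ -(1 - δ / 400) * (Real.cos (k * t) / t) := by
    have := mul_le_mul_of_nonneg_left hcos1 hα0.le
    linarith
  have t2 : -(13 / 50 * δ) * (1 / D) ≤ -(13 / 50 * δ) * (Real.cos (k * D) / D) := by
    have := mul_le_mul_of_nonneg_left hcos2 (by positivity : 0 ≤ 13 / 50 * δ)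
    linarith
  have t3 : 13 / 50 * δ / r * ((1 - k ^ 2 * Z ^ 2 / 2) / Z)
      ≤ 13 / 50 * δ / r * (Real.cos (k * Z) / Z) :=
    mul_le_mul_of_nonneg_left hcos3 (by positivity)
  have t4 : 13 / 50 * δ / r * ((1 - k ^ 2 * Z ^ 2 / 2) / Z)
      = 13 / 50 * δ / (r * Z) - 13 / 50 * δ / r * (k ^ 2 * Z / 2) := by
    field_simp
  have t5 : 13 / 50 * δ / r * (k ^ 2 * Z / 2) ≤ 42 * k ^ 2 := by
    have h2 : 13 / 50 * δ / r ≤ 1 := by
      rw [div_le_one hr0, hδ]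
      linarith [show (13 : ℝ) / 50 * (1 / 10 ^ 6) ≤ 1 by norm_num]
    have h3 : k ^ 2 * Z / 2 ≤ k ^ 2 * 42 := by
      have := mul_le_mul_of_nonneg_left hZ (sq_nonneg k)
      have h4 : 0 ≤ k ^ 2 * Z := by positivity
      linarith
    calc 13 / 50 * δ / r * (k ^ 2 * Z / 2) ≤ 1 * (k ^ 2 * 42) :=
          mul_le_mul h2 h3 (by positivity) zero_le_one
      _ = 42 * k ^ 2 := by ring
  have t6 : δ / 400 * (1 / 41) ≤ δ / 400 * (1 / t) := by
    have h2 : 1 / 41 ≤ 1 / t := one_div_le_one_div_of_le ht0 ht41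
    exact mul_le_mul_of_nonneg_left h2 (by positivity : 0 ≤ δ / 400)
  have t7 : 442 * k ^ 2 < δ / 400 * (1 / 41) := by
    rw [hδ]
    have : 442 * k ^ 2 ≤ 442 * (1 / 10 ^ 22) := by linarith
    have h2 : (442 : ℝ) * (1 / 10 ^ 22) < 1 / 10 ^ 6 / 400 * (1 / 41) := by norm_num
    linarith
  have t8 : -(1 - δ / 400) * (1 / t) = - (1 / t) + δ / 400 * (1 / t) := by ring
  have t9 : -(13 / 50 * δ) * (1 / D) = - (13 / 50 * δ / D) := by ring
  linarith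

lemma far_real {δ k s r C a b c : ℝ} (hδ : δ = 1 / 10 ^ 6) (hs : 40 ≤ s) (hr : 11 / 8 ≤ r)
    (hC : C = (1 - δ / 400) + 13 / 50 * δ - 13 / 50 * δ / r)
    (hfar : 6 / s < Real.sin (k * s) / k - C * Real.cos (k * s))
    (ha : a - Real.cos (k * s) / s ≤ 6 * (19 / 20) / s ^ 2)
    (hb : b - Real.cos (k * s) / s ≤ 6 * (6 / 5) / s ^ 2)
    (hc : -(6 * 2 / s ^ 2) ≤ c - Real.cos (k * s) / s) :
    0 < ((1 / k * (Real.sin (k * s) / s) + -(1 - δ / 400) * a) + -(13 / 50 * δ) * b)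
      + 13 / 50 * δ / r * c := by
  have hs0 : 0 < s := by linarith
  have hr0 : 0 < r := by linarith
  have hδ0 : 0 < δ := by rw [hδ]; norm_num
  have hβ : 13 / 50 * δ ≤ 1 / 10 ^ 6 := by rw [hδ]; norm_num
  have hβr : 13 / 50 * δ / r ≤ 1 / 10 ^ 6 := by
    rw [div_le_iff₀ hr0]
    nlinarith
  have hβr0 : 0 < 13 / 50 * δ / r := by positivity
  set X := Real.cos (k * s) / s with hX
  have h1 : (1 - δ / 400) * (a - X) ≤ 1 * (6 * (19 / 20) / s ^ 2) := by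
    have h2 : (1 - δ / 400) * (a - X) ≤ (1 - δ / 400) * (6 * (19 / 20) / s ^ 2) :=
      mul_le_mul_of_nonneg_left ha (by rw [hδ]; norm_num)
    have h3 : (1 - δ / 400) * (6 * (19 / 20) / s ^ 2) ≤ 1 * (6 * (19 / 20) / s ^ 2) :=
      mul_le_mul_of_nonneg_right (by linarith) (by positivity)
    linarith
  have h2 : (13 / 50 * δ) * (b - X) ≤ 1 / 10 ^ 6 * (6 * (6 / 5) / s ^ 2) := by
    have h2 : (13 / 50 * δ) * (b - X) ≤ (13 / 50 * δ) * (6 * (6 / 5) / s ^ 2) :=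
      mul_le_mul_of_nonneg_left hb (by positivity)
    have h3 : (13 / 50 * δ) * (6 * (6 / 5) / s ^ 2) ≤ 1 / 10 ^ 6 * (6 * (6 / 5) / s ^ 2) :=
      mul_le_mul_of_nonneg_right hβ (by positivity)
    linarith
  have h3 : -(1 / 10 ^ 6 * (6 * 2 / s ^ 2)) ≤ 13 / 50 * δ / r * (c - X) := by
    have h2 : 13 / 50 * δ / r * (-(6 * 2 / s ^ 2)) ≤ 13 / 50 * δ / r * (c - X) :=
      mul_le_mul_of_nonneg_left hc hβr0.le
    have h3 : (13 / 50 * δ / r) * (6 * 2 / s ^ 2) ≤ 1 / 10 ^ 6 * (6 * 2 / s ^ 2) :=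
      mul_le_mul_of_nonneg_right hβr (by positivity)
    linarith
  have h4 : 6 / s * (1 / s) < (Real.sin (k * s) / k - C * Real.cos (k * s)) * (1 / s) :=
    mul_lt_mul_of_pos_right hfar (by positivity)
  have e1 : 6 / s * (1 / s) = 6 / s ^ 2 := by field_simp
  have e2 : (Real.sin (k * s) / k - C * Real.cos (k * s)) * (1 / s)
      = 1 / k * (Real.sin (k * s) / s) - C * X := by
    rw [hX]; ring
  rw [e1, e2] at h4
  have e3 : 1 * (6 * (19 / 20) / s ^ 2) + 1 / 10 ^ 6 * (6 * (6 / 5) / s ^ 2)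
      + 1 / 10 ^ 6 * (6 * 2 / s ^ 2) ≤ 6 / s ^ 2 := by
    have : 1 * (6 * (19 / 20) / s ^ 2) + 1 / 10 ^ 6 * (6 * (6 / 5) / s ^ 2)
      + 1 / 10 ^ 6 * (6 * 2 / s ^ 2) = (6 * (19 / 20) + 1 / 10 ^ 6 * (6 * (6 / 5)) + 1 / 10 ^ 6 * 12) / s ^ 2 := by
      ring
    rw [this]
    apply div_le_div_of_nonneg_right (by norm_num) (by positivity)
  have e4 : C * X = (1 - δ / 400) * X + 13 / 50 * δ * X - 13 / 50 * δ / r * X := by rw [hC]; ring
  have g1 : (1 - δ / 400) * (a - X) = (1 - δ / 400) * a - (1 - δ / 400) * X := by ring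
  have g2 : (13 / 50 * δ) * (b - X) = (13 / 50 * δ) * b - (13 / 50 * δ) * X := by ring
  have g3 : 13 / 50 * δ / r * (c - X) = 13 / 50 * δ / r * c - 13 / 50 * δ / r * X := by ring
  have g4 : -(1 - δ / 400) * a = - ((1 - δ / 400) * a) := by ring
  have g5 : -(13 / 50 * δ) * b = - ((13 / 50 * δ) * b) := by ring
  rw [g4, g5]
  linarith

/-- The supersolution for the obstacle centred at `x` and one small ball centred at `y`. -/
noncomputable def wsup (δ R : ℝ) (x y : E3) : E3 → ℝ := fun z =>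
  (((1 / kk δ R) * (Real.sin (kk δ R * ‖z - 0‖) / ‖z - 0‖)
    + (-(1 - δ / 400)) * (Real.cos (kk δ R * ‖z - x‖) / ‖z - x‖))
    + (-(13 / 50 * δ)) * (Real.cos (kk δ R * ‖z - y‖) / ‖z - y‖))
    + (13 / 50 * δ / ‖y - x‖) * (Real.cos (kk δ R * ‖z - (x + (1 / ‖y - x‖ ^ 2) • (y - x))‖)
      / ‖z - (x + (1 / ‖y - x‖ ^ 2) • (y - x))‖)

lemma geom_aux {δ : ℝ} (hδ0 : 0 < δ) {x y z : E3} (hx : ‖x‖ ≤ 19 / 20) (hy : ‖y‖ = 6 / 5)
    (hxy : 11 / 8 ≤ ‖y - x‖) (hzx : 1 < ‖z - x‖) (hzy : δ < ‖z - y‖) :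
    ‖y - x‖ ≤ 11 / 5 ∧ 0 < ‖z - (x + (1 / ‖y - x‖ ^ 2) • (y - x))‖ ∧
    ‖x + (1 / ‖y - x‖ ^ 2) • (y - x)‖ ≤ 2 ∧ 0 < ‖z‖ ∧
    ‖y - x‖ - ‖z - x‖ ≤ ‖z - y‖ ∧ ‖z - x‖ ≤ ‖y - x‖ + ‖z - y‖ := by
  obtain ⟨r, hr⟩ : ∃ r, r = ‖y - x‖ := ⟨_, rfl⟩
  have hr0 : 0 < r := by rw [hr]; linarith
  have hr2 : r ≤ 11 / 5 := by
    have := norm_sub_le y x
    rw [← hr] at this; linarith
  have hkel := kelvin x y z r hr0 hr.symm
  rw [← hr] at hxy ⊢
  refine ⟨hr2, ?_, ?_, ?_, ?_, ?_⟩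
  · have h1 : 0 < (r * ‖z - (x + (1 / r ^ 2) • (y - x))‖) ^ 2 := by
      rw [hkel]
      have h2 : 0 ≤ (r ^ 2 - 1) * (‖z - x‖ ^ 2 - 1) := mul_nonneg (by nlinarith) (by nlinarith)
      have h3 : 0 < ‖z - y‖ := by linarith
      positivity
    rcases (norm_nonneg (z - (x + (1 / r ^ 2) • (y - x)))).eq_or_lt with h3 | h3
    · rw [← h3] at h1; norm_num at h1
    · exact h3
  · have h1 : ‖x + (1 / r ^ 2) • (y - x)‖ ≤ ‖x‖ + ‖(1 / r ^ 2) • (y - x)‖ := norm_add_le _ _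
    have h2 : ‖(1 / r ^ 2) • (y - x)‖ = 1 / r := by
      rw [norm_smul, Real.norm_of_nonneg (by positivity), ← hr]
      field_simp
    have h3 : 1 / r ≤ 8 / 11 := by
      rw [div_le_div_iff₀ hr0 (by norm_num)]; linarith
    linarith
  · have h1 : ‖z - x‖ ≤ ‖z‖ + ‖x‖ := norm_sub_le _ _
    linarith
  · have e : y - x = (z - x) - (z - y) := by abel
    have : r ≤ ‖z - x‖ + ‖z - y‖ := by rw [hr, e]; exact norm_sub_le _ _
    linarith
  · have e : z - x = (y - x) + (z - y) := by abel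
    rw [hr, e]; exact norm_add_le _ _

lemma kk_bounds {δ R : ℝ} (hδ : δ = 1 / 10 ^ 6) (hR : R = 10 ^ 12) :
    0 < R - Cp δ ∧ 0 < kk δ R ∧ kk δ R ≤ 1 / 10 ^ 11 ∧ kk δ R * R ≤ 4 := by
  have hCpv : Cp δ = 1 + 13 / 200 * δ := rfl
  have hRC : 0 < R - Cp δ := by rw [hCpv, hδ, hR]; norm_num
  have hk0 : 0 < kk δ R := div_pos Real.pi_pos hRC
  have hpi4 : Real.pi < 3.15 := Real.pi_lt_d2
  refine ⟨hRC, hk0, ?_, ?_⟩
  · rw [kk, div_le_div_iff₀ hRC (by norm_num), hCpv, hδ, hR]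
    norm_num
    linarith
  · rw [kk, div_mul_eq_mul_div, div_le_iff₀ hRC, hCpv, hδ, hR]
    norm_num
    nlinarith

lemma wsup_pos {δ R : ℝ} (hδ : δ = 1 / 10 ^ 6) (hR : R = 10 ^ 12) {x y z : E3}
    (hx : ‖x‖ ≤ 19 / 20) (hy : ‖y‖ = 6 / 5) (hxy : 11 / 8 ≤ ‖y - x‖)
    (hzR : ‖z‖ < R) (hzx : 1 < ‖z - x‖) (hzy : δ < ‖z - y‖) :
    0 < wsup δ R x y z := by
  have hδ0 : 0 < δ := by rw [hδ]; norm_num
  have hCpv : Cp δ = 1 + 13 / 200 * δ := rfl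
  obtain ⟨hRC, hk0, hksmall, hkR4⟩ := kk_bounds hδ hR
  obtain ⟨hr2, hZ0, hys, hz0, htri1, htri2⟩ := geom_aux hδ0 hx hy hxy hzx hzy
  have hkel := kelvin x y z ‖y - x‖ (by linarith) rfl
  unfold wsup
  rw [sub_zero]
  rcases le_or_gt ‖z‖ 40 with hloc | hfar
  · apply local_real hδ hk0 hksmall hz0 hloc hzx _ hzy hxy hZ0
    · have := norm_sub_le z (x + (1 / ‖y - x‖ ^ 2) • (y - x))
      linarith
    · exact U_nonneg hδ (β := 13 / 50 * δ) rfl hxy hr2 hzx.le hzy.le (mul_pos (by linarith) hZ0)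
        hkel htri1 htri2
    · have : ‖z - x‖ ≤ ‖z‖ + ‖x‖ := norm_sub_le _ _
      linarith
  · have hrinv : 13 / 50 * δ / ‖y - x‖ ≤ 13 / 50 * δ * (8 / 11) := by
      rw [div_le_iff₀ (by linarith)]
      have : 1 ≤ 8 / 11 * ‖y - x‖ := by linarith
      nlinarith
    have hrinv0 : 0 < 13 / 50 * δ / ‖y - x‖ := by
      have : 0 < ‖y - x‖ := by linarith
      positivity
    have hC1 : Cp δ + 3 / 1000 * δ ≤ (1 - δ / 400) + 13 / 50 * δ - 13 / 50 * δ / ‖y - x‖ := by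
      rw [hCpv]; linarith
    have hC2 : (1 - δ / 400) + 13 / 50 * δ - 13 / 50 * δ / ‖y - x‖ ≤ 2 := by
      have : 13 / 50 * δ ≤ 1 := by rw [hδ]; norm_num
      linarith
    have hfarpos := far_pos hδ hR.ge hC1 hC2 hfar.le hzR
    have hks : kk δ R * ‖z‖ ≤ 4 := (mul_le_mul_of_nonneg_left hzR.le hk0.le).trans hkR4
    have hcmp : ∀ p : E3, ∀ d : ℝ, ‖p‖ ≤ d → 0 ≤ d → d ≤ 2 →
        |Real.cos (kk δ R * ‖z - p‖) / ‖z - p‖ - Real.cos (kk δ R * ‖z‖) / ‖z‖| ≤ 6 * d / ‖z‖ ^ 2 := by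
      intro p d hpd hd0 hd
      apply cos_compare hk0 hks hfar.le hd0 hd
      have h1 := abs_norm_sub_norm_le (z - p) z
      have h2 : z - p - z = -p := by abel
      rw [h2, norm_neg] at h1
      exact h1.trans hpd
    have c1 := (abs_le.1 (hcmp x (19 / 20) hx (by norm_num) (by norm_num))).2
    have c2 := (abs_le.1 (hcmp y (6 / 5) hy.le (by norm_num) (by norm_num))).2
    have c3 := (abs_le.1 (hcmp _ 2 hys (by norm_num) le_rfl)).1
    exact far_real hδ hfar.le hxy rfl hfarpos c1 c2 c3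

lemma wsup_helm {δ R : ℝ} (hδ0 : 0 < δ) {x y : E3} (hx : ‖x‖ ≤ 19 / 20) (hy : ‖y‖ = 6 / 5)
    (hxy : 11 / 8 ≤ ‖y - x‖) (V : Set E3) (hVx : ∀ z ∈ V, 1 < ‖z - x‖)
    (hVy : ∀ z ∈ V, δ < ‖z - y‖) : Helm (kk δ R) V (wsup δ R x y) := by
  have hne : ∀ z ∈ V, ∀ p : E3, 0 < ‖z - p‖ → z ≠ p := by
    rintro z _ p hp rfl
    simp at hp
  apply Helm.add
  · apply Helm.add
    · apply Helm.add
      · apply Helm.const_mul
        apply helm_sin
        intro z hz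
        apply hne z hz
        rw [sub_zero]
        exact (geom_aux hδ0 hx hy hxy (hVx z hz) (hVy z hz)).2.2.2.1
      · apply Helm.const_mul
        apply helm_cos
        intro z hz
        exact hne z hz _ (by linarith [hVx z hz])
    · apply Helm.const_mul
      apply helm_cos
      intro z hz
      exact hne z hz _ (by linarith [hVy z hz])
  · apply Helm.const_mul
    apply helm_cos
    intro z hz
    exact hne z hz _ (geom_aux hδ0 hx hy hxy (hVx z hz) (hVy z hz)).2.1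

/-- Lower bound for the energy in the complement of the obstacle and one small ball. -/
theorem lower_bound {δ R : ℝ} (hδ : δ = 1 / 10 ^ 6) (hR : R = 10 ^ 12) {x y : E3}
    (hx : ‖x‖ ≤ 19 / 20) (hy : ‖y‖ = 6 / 5) (hxy : 11 / 8 ≤ ‖y - x‖) {φ : E3 → ℝ}
    (hφ : IsTest (Metric.ball 0 R \ (Metric.closedBall x 1 ∪ Metric.closedBall y δ)) φ) :
    kk δ R ^ 2 * mass φ ≤ energy φ := by
  have hδ0 : 0 < δ := by rw [hδ]; norm_num
  have hV1 : ∀ z ∈ (Metric.ball 0 R \ (Metric.closedBall x 1 ∪ Metric.closedBall y δ) : Set E3),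
      ‖z‖ < R ∧ 1 < ‖z - x‖ ∧ δ < ‖z - y‖ := by
    intro z hz
    simp only [Set.mem_sdiff, Set.mem_union, Metric.mem_ball, Metric.mem_closedBall, dist_eq_norm,
      sub_zero, not_or, not_le] at hz
    exact ⟨hz.1, hz.2.1, hz.2.2⟩
  apply Helm.energy_le _ (wsup_helm (R := R) hδ0 hx hy hxy _ (fun z hz => (hV1 z hz).2.1)
    (fun z hz => (hV1 z hz).2.2)) _ hφ
  · exact Metric.isOpen_ball.sdiff (Metric.isClosed_closedBall.union Metric.isClosed_closedBall)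
  · intro z hz
    exact wsup_pos hδ hR hx hy hxy (hV1 z hz).1 (hV1 z hz).2.1 (hV1 z hz).2.2

end Pool.Agent.Helper73.Obst
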