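import Mathlib
import Pool.Agent.Helper73.Obst.Base
import Pool.Agent.Helper73.Obst.Super

set_option autoImplicit false

namespace Pool.Agent.Helper73.Obst

open MeasureTheory Set
open scoped ContDiff

lemma upper_real {δ R c D ε m X Y pi V : ℝ} (hδ : δ = 1 / 10 ^ 6) (hR : R = 10 ^ 12)
    (hc : c = 13 / 200 * δ) (hD : D = R - 1 - c) (hε : ε = 1 / 10 ^ 12) (hpi0 : 0 < pi)
    (hpi : pi < 3.15) (hm : m = 1669 / 10000)
    (hX : X = m ^ 2 * (103 / 100) * (101 / 100 * δ) + 2 * m * 2 * 103 * (101 / 100 * δ) ^ 2)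
    (hY : Y = m ^ 2 * (101 * (101 / 100 * δ)) ^ 3 / 3) (hV : 0 < V) :
    V * ((R - 1) / 2) + V * X + V * X
      < (pi / D) ^ 2 * (V * ((R - 1) ^ 3 / (2 * pi ^ 2) - 4 * ε * (R - 1) ^ 2 / pi) - V * Y - V * Y) := by
  have hD0 : 10 ^ 11 < D := by rw [hD, hc, hR, hδ]; norm_num
  have hDpos : 0 < D := by linarith
  have hR1 : R - 1 = D + c := by rw [hD]; ring
  have hc0 : c = 65 / 10 ^ 9 := by rw [hc, hδ]; norm_num
  have hXv : X ≤ 2905 / 10 ^ 11 := by rw [hX, hm, hδ]; norm_num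
  have hYv : Y ≤ 1 / 10 ^ 12 := by rw [hY, hm, hδ]; norm_num
  rw [hR1]
  have e1 : (pi / D) ^ 2 * (V * ((D + c) ^ 3 / (2 * pi ^ 2) - 4 * ε * (D + c) ^ 2 / pi) - V * Y - V * Y)
      = V * (((D + c) ^ 3 / 2 - 4 * ε * pi * (D + c) ^ 2 - 2 * pi ^ 2 * Y) / D ^ 2) := by
    field_simp
    ring
  have e2 : V * ((D + c) / 2) + V * X + V * X = V * ((D + c) / 2 + 2 * X) := by ring
  rw [e1, e2]
  apply mul_lt_mul_of_pos_left _ hV
  rw [lt_div_iff₀ (by positivity)]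
  -- main inequality
  have hc1 : 0 < c := by rw [hc0]; norm_num
  have f1 : (D + c) ^ 3 / 2 - ((D + c) / 2) * D ^ 2 ≥ c * D ^ 2 := by
    have : (D + c) ^ 3 / 2 - ((D + c) / 2) * D ^ 2 - c * D ^ 2 = 3 / 2 * D * c ^ 2 + c ^ 3 / 2 := by
      ring
    have h2 : 0 ≤ 3 / 2 * D * c ^ 2 + c ^ 3 / 2 := by positivity
    linarith
  have f2 : (D + c) ^ 2 ≤ 2 * D ^ 2 := by
    have : D + c ≤ 5 / 4 * D := by rw [hc0]; linarith
    have h3 : (D + c) ^ 2 ≤ (5 / 4 * D) ^ 2 := pow_le_pow_left₀ (by linarith) this 2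
    nlinarith [sq_nonneg D]
  have f3 : 4 * ε * pi * (D + c) ^ 2 ≤ 4 * ε * 3.15 * (2 * D ^ 2) := by
    have h4 : 4 * ε * pi ≤ 4 * ε * 3.15 := by
      rw [hε]; linarith
    have h5 : 0 ≤ 4 * ε * 3.15 := by rw [hε]; norm_num
    exact mul_le_mul h4 f2 (sq_nonneg _) h5
  have f4 : 2 * pi ^ 2 * Y ≤ 20 * (1 / 10 ^ 12) := by
    have h6 : pi ^ 2 ≤ 10 := by nlinarith
    have h7 : 2 * pi ^ 2 * Y ≤ 2 * pi ^ 2 * (1 / 10 ^ 12) :=
      mul_le_mul_of_nonneg_left hYv (by positivity)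
    nlinarith
  have f5 : 2 * X * D ^ 2 ≤ 2 * (2905 / 10 ^ 11) * D ^ 2 := by
    apply mul_le_mul_of_nonneg_right _ (sq_nonneg _)
    linarith
  have hD2 : (1 : ℝ) ≤ D ^ 2 := by nlinarith
  have f6 : c * D ^ 2 = 65 / 10 ^ 9 * D ^ 2 := by rw [hc0]
  have f7 : 4 * ε * 3.15 * (2 * D ^ 2) = 252 / 10 ^ 13 * D ^ 2 := by
    rw [hε]; ring
  have e3 : ((D + c) / 2 + 2 * X) * D ^ 2 = ((D + c) / 2) * D ^ 2 + 2 * X * D ^ 2 := by ring
  rw [e3]
  rw [f6] at f1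
  rw [f7] at f3
  linarith

/-- The domain with the centred obstacle and both small balls removed has a test function with
Rayleigh quotient below `kk²`. -/
theorem upper_two {δ R : ℝ} (hδ : δ = 1 / 10 ^ 6) (hR : R = 10 ^ 12) {a : E3}
    (ha : ‖a‖ = 6 / 5) :
    ∃ φ : E3 → ℝ, IsTest (((Metric.ball 0 R \ Metric.closedBall 0 1) \ Metric.closedBall a δ)
      \ Metric.closedBall (-a) δ) φ ∧ energy φ < kk δ R ^ 2 * mass φ := by
  obtain ⟨ψ, hψ, hE, hM, hm₀, hm₁⟩ := exists_base (R := R) (ε := 1 / 10 ^ 12)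
    (by rw [hR]; norm_num) (by norm_num) (by norm_num)
  have hδ0 : 0 < δ := by rw [hδ]; norm_num
  have hδe : 101 * (101 / 100 * δ) ≤ 10203 / 10 ^ 8 := by rw [hδ]; norm_num
  set m : ℝ := 1669 / 10000 with hm
  have hnear : ∀ b z : E3, ‖b‖ = 6 / 5 → ‖z - b‖ ≤ 101 * (101 / 100 * δ) →
      1 ≤ ‖z‖ ∧ ‖z‖ ≤ 120011 / 10 ^ 5 := by
    intro b z hb hz
    have h1 : ‖b‖ - ‖z‖ ≤ ‖z - b‖ := by
      rw [norm_sub_rev]; exact norm_sub_norm_le _ _
    have h2 : ‖z‖ - ‖b‖ ≤ ‖z - b‖ := norm_sub_norm_le _ _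
    norm_num at hδe
    constructor <;> linarith
  have hA0 : ∀ b z : E3, ‖b‖ = 6 / 5 → ‖z - b‖ ≤ 101 * (101 / 100 * δ) → |ψ z| ≤ m := by
    intro b z hb hz
    obtain ⟨h1, h2⟩ := hnear b z hb hz
    refine (hm₀ z h1 (by rw [hR]; linarith)).trans ?_
    rw [div_le_iff₀ (by linarith), hm]
    linarith
  have hA1 : ∀ b z : E3, ‖b‖ = 6 / 5 → ‖z - b‖ ≤ 101 * (101 / 100 * δ) → ‖fderiv ℝ ψ z‖ ≤ 2 := by
    intro b z hb hz
    obtain ⟨h1, h2⟩ := hnear b z hb hz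
    exact hm₁ z h1 (by linarith)
  obtain ⟨φ₁, hT₁, heq₁, hfd₁, hE₁, hM₁⟩ := addBall hψ a (δ := δ) (δ₁ := 101 / 100 * δ)
    (m₀ := m) (m₁ := 2) hδ0.le (by linarith) (fun z hz => hA0 a z ha hz) (fun z hz => hA1 a z ha hz)
  have hna : ‖-a‖ = 6 / 5 := by rw [norm_neg, ha]
  have hfar : ∀ z : E3, ‖z - (-a)‖ ≤ 101 * (101 / 100 * δ) → 101 * (101 / 100 * δ) < ‖z - a‖ := by
    intro z hz
    have h1 : ‖(2 : ℝ) • a‖ = 12 / 5 := by rw [norm_smul, ha]; norm_num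
    have h2 : (2 : ℝ) • a = (z - (-a)) - (z - a) := by rw [two_smul]; abel
    have h3 : ‖(2 : ℝ) • a‖ ≤ ‖z - (-a)‖ + ‖z - a‖ := by rw [h2]; exact norm_sub_le _ _
    norm_num at hδe
    linarith
  obtain ⟨φ₂, hT₂, heq₂, hfd₂, hE₂, hM₂⟩ := addBall hT₁ (-a) (δ := δ) (δ₁ := 101 / 100 * δ)
    (m₀ := m) (m₁ := 2) hδ0.le (by linarith)
    (fun z hz => by rw [heq₁ z (hfar z hz)]; exact hA0 (-a) z hna hz)
    (fun z hz => by rw [hfd₁ z (hfar z hz)]; exact hA1 (-a) z hna hz)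
  refine ⟨φ₂, hT₂, ?_⟩
  have hkey := upper_real (δ := δ) (R := R) (c := 13 / 200 * δ) (D := R - 1 - 13 / 200 * δ)
    (ε := 1 / 10 ^ 12) (m := m) (X := m ^ 2 * (103 / 100) * (101 / 100 * δ) + 2 * m * 2 * 103 * (101 / 100 * δ) ^ 2)
    (Y := m ^ 2 * (101 * (101 / 100 * δ)) ^ 3 / 3) (pi := Real.pi) (V := V3)
    hδ hR rfl rfl rfl Real.pi_pos (by have := Real.pi_lt_d2; linarith) rfl rfl rfl V3_pos
  have hkk : kk δ R = Real.pi / (R - 1 - 13 / 200 * δ) := by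
    rw [kk, Cp]; congr 1; ring
  rw [hkk]
  calc energy φ₂ ≤ _ := hE₂
    _ ≤ _ := by linarith [hE₁, hE]
    _ < _ := hkey
    _ ≤ _ := by
      apply mul_le_mul_of_nonneg_left _ (sq_nonneg _)
      linarith [hM₁, hM₂, hM]

/-- Removing finitely many tiny balls keeps the strict inequality. -/
theorem upper_holes {U : Set E3} {φ₀ : E3 → ℝ} (hφ₀ : IsTest U φ₀) {Λ : ℝ} (hΛ : 0 ≤ Λ)
    (h : energy φ₀ < Λ * mass φ₀) (Z : Finset E3) :
    ∃ η₀ > 0, ∃ φ, IsTest (U \ ⋃ p ∈ Z, Metric.closedBall p η₀) φ ∧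
      energy φ < Λ * mass φ := by
  classical
  induction Z using Finset.induction_on with
  | empty => exact ⟨1, one_pos, φ₀, by simpa using hφ₀, h⟩
  | insert p Z _ ih =>
    obtain ⟨η₀, hη₀, φ, hφ, hlt⟩ := ih
    -- global bounds
    obtain ⟨m₀, hm₀⟩ : ∃ m₀, ∀ z, |φ z| ≤ m₀ := by
      obtain ⟨C, hC⟩ := hφ.continuous.bounded_above_of_compact_support hφ.2.1
      exact ⟨C, fun z => by simpa using hC z⟩
    obtain ⟨m₁, hm₁⟩ : ∃ m₁, ∀ z, ‖fderiv ℝ φ z‖ ≤ m₁ :=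
      hφ.continuous_fderiv.bounded_above_of_compact_support (hφ.2.1.fderiv (𝕜 := ℝ))
    -- the gap
    have hlim : Filter.Tendsto (fun t : ℝ => energy φ
        + V3 * (m₀ ^ 2 * (103 / 100) * t + 2 * m₀ * m₁ * 103 * t ^ 2)
        - Λ * (mass φ - V3 * (m₀ ^ 2 * (101 * t) ^ 3 / 3))) (nhds 0)
        (nhds (energy φ - Λ * mass φ)) := by
      have hc : Continuous (fun t : ℝ => energy φ
        + V3 * (m₀ ^ 2 * (103 / 100) * t + 2 * m₀ * m₁ * 103 * t ^ 2)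
        - Λ * (mass φ - V3 * (m₀ ^ 2 * (101 * t) ^ 3 / 3))) := by fun_prop
      have := hc.tendsto 0
      simpa using this
    have hneg : energy φ - Λ * mass φ < 0 := by linarith
    have hev := hlim.eventually (gt_mem_nhds hneg)
    obtain ⟨t₀, ht₀, hball⟩ := Metric.eventually_nhds_iff.1 hev
    set t : ℝ := t₀ / 2 with ht
    have htpos : 0 < t := by positivity
    have hlt2 := hball (y := t) (by rw [Real.dist_eq, sub_zero, abs_of_pos htpos]; linarith)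
    obtain ⟨φ', hT', _, _, hE', hM'⟩ := addBall hφ p (δ := t / 2) (δ₁ := t) (m₀ := m₀) (m₁ := m₁)
      (by positivity) (by linarith) (fun z _ => hm₀ z) (fun z _ => hm₁ z)
    refine ⟨min η₀ (t / 2), lt_min hη₀ (by positivity), φ', ⟨hT'.1, hT'.2.1, ?_⟩, ?_⟩
    · intro z hz
      have h1 := hT'.2.2 hz
      refine ⟨h1.1.1, ?_⟩
      simp only [Finset.mem_insert, Set.mem_iUnion, not_exists, exists_prop, not_and]
      rintro q (rfl | hq) hzq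
      · exact h1.2 (Metric.closedBall_subset_closedBall (min_le_right _ _) hzq)
      · apply h1.1.2
        simp only [Set.mem_iUnion, exists_prop]
        exact ⟨q, hq, Metric.closedBall_subset_closedBall (min_le_left _ _) hzq⟩
    · have h2 : Λ * (mass φ - V3 * (m₀ ^ 2 * (101 * t) ^ 3 / 3)) ≤ Λ * mass φ' :=
        mul_le_mul_of_nonneg_left hM' hΛ
      linarith

end Pool.Agent.Helper73.Obst
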